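import Mathlib.LinearAlgebra.Dimension.Finrank
import Mathlib.LinearAlgebra.Matrix.Determinant.Basic
import Mathlib.RingTheory.Valuation.Basic
import Mathlib.Data.Int.ConditionallyCompleteOrder
import Mathlib.Data.Real.Basic

/-!
Smooth projective curves over a field `K` in the language of function fields: points, divisors,
genus, vector bundles and coherent systems.
-/

namespace Pool.Agent.MP_79c67d_ag

/-- A point of the smooth projective curve with function field `F` over `K`: a normalized
discrete valuation of `F` that is trivial on `K`, written multiplicatively,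
`v f = exp (- ord f)`. -/
structure Place (K F : Type) [Field K] [Field F] [Algebra K F] where
  v : Valuation F (WithZero (Multiplicative ℤ))
  surj : Function.Surjective v
  triv : ∀ c : K, v (algebraMap K F c) ≤ 1

variable {K F : Type} [Field K] [Field F] [Algebra K F]

/-- The order of vanishing of a nonzero function at a point. -/
noncomputable def Place.ord (P : Place K F) (f : F) : ℤ := - WithZero.log (P.v f)

/-- `f` vanishes to order at least `n` at `P` (true for `f = 0`). -/
def Place.Ge (P : Place K F) (n : ℤ) (f : F) : Prop := P.v f ≤ WithZero.exp (-n)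

/-- Divisors: finite integer combinations of points. -/
abbrev Divisor (K F : Type) [Field K] [Field F] [Algebra K F] := Place K F →₀ ℤ

/-- The degree of a divisor. -/
def deg (D : Divisor K F) : ℤ := D.sum fun _ n => n

/-- `H^0(O(D))`: the functions `f` with `div f + D ≥ 0`. -/
def sec (D : Divisor K F) : Submodule K F where
  carrier := {f | ∀ P : Place K F, P.Ge (-D P) f}
  add_mem' := fun {f g} hf hg P => (P.v.map_add f g).trans (max_le (hf P) (hg P))
  zero_mem' := fun P => by simp [Place.Ge]
  smul_mem' := fun c f hf P => by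
    have := mul_le_mul' (P.triv c) (hf P)
    simpa [Place.Ge, Algebra.smul_def] using this

/-- `h^0(O(D))`. -/
noncomputable def h0 (D : Divisor K F) : ℕ := Module.finrank K (sec D)

variable (K F) in
/-- The genus: the largest value of `deg D + 1 - h^0(O(D))`. -/
noncomputable def genus : ℕ := sSup {n : ℕ | ∃ D : Divisor K F, (n : ℤ) = deg D + 1 - h0 D}

variable (K F) in
/-- A vector bundle of rank `n` with a basis of its generic fibre `F^n`: at each point `P` the
rows of `g P` form a basis of the stalk over the local ring, and this is the standard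
lattice for all but finitely many `P`. -/
structure Bundle (n : ℕ) where
  g : Place K F → Matrix (Fin n) (Fin n) F
  det_ne : ∀ P, (g P).det ≠ 0
  fin : {P : Place K F | ¬ ((∀ i j, P.Ge 0 (g P i j)) ∧ P.ord (g P).det = 0)}.Finite

/-- The combinations of a finite family of vectors with coefficients regular at `P`. -/
def Place.lat (P : Place K F) {n : ℕ} {ι : Type} [Fintype ι] (u : ι → Fin n → F) :
    Set (Fin n → F) :=
  {s | ∃ c : ι → F, (∀ i, P.Ge 0 (c i)) ∧ s = ∑ i, c i • u i}

namespace Bundle

variable {n : ℕ}

/-- The stalk of the bundle at `P`. -/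
def stalk (E : Bundle K F n) (P : Place K F) : Set (Fin n → F) := P.lat (E.g P)

/-- The degree of the bundle. -/
noncomputable def deg (E : Bundle K F n) : ℤ := ∑ᶠ P : Place K F, - P.ord (E.g P).det

end Bundle

variable (K F) in
/-- A coherent system `(E, V)` with `E` of rank `r`: `V` is a space of global sections. -/
structure CohSys (r : ℕ) where
  E : Bundle K F r
  V : Submodule K (Fin r → F)
  mem : ∀ s ∈ V, ∀ P, s ∈ E.stalk P

namespace CohSys

variable {r : ℕ}

/-- The system has type `(r, d, n)`. -/
def HasType (S : CohSys K F r) (d : ℤ) (n : ℕ) : Prop :=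
  S.E.deg = d ∧ Module.finrank K S.V = n

/-- The `α`-slope `deg E / r + α dim V / r`. -/
noncomputable def slope (S : CohSys K F r) (α : ℝ) : ℝ :=
  (S.E.deg : ℝ) / r + α * (Module.finrank K S.V : ℝ) / r

/-- `V` generates `E`: every germ is a combination of elements of `V` with regular
coefficients. -/
def Generated (S : CohSys K F r) : Prop :=
  ∀ P, ∀ s ∈ S.E.stalk P, ∃ (m : ℕ) (u : Fin m → Fin r → F), (∀ i, u i ∈ S.V) ∧ s ∈ P.lat u

/-- `φ` embeds `T` in `S` as a coherent subsystem. -/
def IsSub {m : ℕ} (T : CohSys K F m) (S : CohSys K F r) (φ : (Fin m → F) →ₗ[F] (Fin r → F)) :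
    Prop :=
  Function.Injective φ ∧ (∀ P, Set.MapsTo φ (T.E.stalk P) (S.E.stalk P)) ∧ Set.MapsTo φ T.V S.V

/-- `α`-stability: every coherent subsystem on a nonzero subsheaf, other than the whole system,
has smaller `α`-slope. -/
def Stable (S : CohSys K F r) (α : ℝ) : Prop :=
  ∀ (m : ℕ) (T : CohSys K F m) (φ : (Fin m → F) →ₗ[F] (Fin r → F)), 0 < m → T.IsSub S φ →
    ¬ ((∀ P, Set.SurjOn φ (T.E.stalk P) (S.E.stalk P)) ∧ Set.SurjOn φ T.V S.V) →
      T.slope α < S.slope α

/-- `T = (N, U)` is the dual span of `S = (E, V)`: for a basis `s` of `V` and sections `t i`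
spanning `U`, the map `N^∨ → O^n`, `v ↦ (t i ⬝ v)_i`, is an isomorphism onto the kernel `M` of
`O^n → E`, `c ↦ ∑ c i s i`. So `N = M^∨` and `U` is the image of `V^∨`. -/
def IsDualSpan {k : ℕ} (S : CohSys K F r) (T : CohSys K F k) : Prop :=
  ∃ (n : ℕ) (s : Fin n → Fin r → F) (t : Fin n → Fin k → F), LinearIndependent K s ∧
    Submodule.span K (Set.range s) = S.V ∧ Submodule.span K (Set.range t) = T.V ∧
    Function.Injective (fun (v : Fin k → F) (i : Fin n) => t i ⬝ᵥ v) ∧
    ∀ P : Place K F, (fun (v : Fin k → F) (i : Fin n) => t i ⬝ᵥ v) ''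
        {v | ∀ w ∈ T.E.stalk P, P.Ge 0 (w ⬝ᵥ v)} =
      {c | (∀ i, P.Ge 0 (c i)) ∧ ∑ i, c i • s i = 0}

end CohSys

end Pool.Agent.MP_79c67d_ag
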