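import Mathlib.Tactic.Monotonicity.Lemmas
import Mathlib.RingTheory.PicardGroup
import Mathlib.Order.CompletePartialOrder
import Pool.Agent.MP_79c67d_ag.FF.Norm
import Mathlib.Algebra.Polynomial.Basis

-- ======== part 0: formerly Pool.Agent.MP_79c67d_ag.FF.Sec
section MrgPart0

set_option autoImplicit false

namespace Pool.Agent.MP_79c67d_ag.FF

open WithZero Polynomial
open Pool.Agent.MP_79c67d_ag.Place (ord)

variable {K F : Type} [Field K] [Field F] [Algebra K F]

theorem IsRat.isFF_self {x : F} (hx : IsRat K x) : IsFF K F := by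
  have := isFF_adjoin hx.trans
  have : FiniteDimensional (IntermediateField.adjoin K {x}) F := by
    refine Module.Finite.of_surjective (Algebra.linearMap (IntermediateField.adjoin K {x}) F)
      fun y => ?_
    obtain ⟨p, q, -, rfl⟩ := hx.gen y
    exact ⟨⟨_, (IntermediateField.mem_adjoin_simple_iff K _).2 ⟨p, q, rfl⟩⟩, rfl⟩
  exact IsFF.of_finite (IntermediateField.adjoin K {x})

theorem IsRat.isFF {L : Type} [Field L] [Algebra K L] [Algebra L F] [IsScalarTower K L F]
    [FiniteDimensional L F] {x : L} (hx : IsRat K x) : IsFF K F := by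
  have := hx.isFF_self
  exact IsFF.of_finite L

theorem isFF_of_transcendental {x : F} (hx : Transcendental K x)
    [FiniteDimensional (IntermediateField.adjoin K {x}) F] : IsFF K F :=
  (isRat_adjoin hx).isFF

variable (K F) in
/-- Reduction of a statement on function fields to the setting of `IsRat`. -/
theorem isFF_elim [IsFF K F] {motive : Prop}
    (h : ∀ (L : Type) [Field L] [Algebra K L] [Algebra L F] [IsScalarTower K L F]
      [FiniteDimensional L F] (x : L), IsRat K x → motive) : motive := by
  obtain ⟨x, hx⟩ := exists_transcendental K F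
  have := finDim_adjoin hx
  exact h _ _ (isRat_adjoin hx)

section divisors

theorem deg_eq_finsum (D : Divisor K F) : deg D = ∑ᶠ P, D P :=
  (finsum_eq_sum_of_support_subset _ (by simp)).symm

@[simp] theorem deg_zero : deg (0 : Divisor K F) = 0 := by simp [deg]

theorem deg_add (D E : Divisor K F) : deg (D + E) = deg D + deg E :=
  Finsupp.sum_add_index' (fun _ => rfl) fun _ _ _ => rfl

@[simp] theorem deg_single (P : Place K F) (n : ℤ) : deg (Finsupp.single P n) = n := by
  simp [deg]

variable (K F) in
/-- The degree as a homomorphism. -/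
def degHom : Divisor K F →+ ℤ where
  toFun := deg
  map_zero' := deg_zero
  map_add' := deg_add

theorem deg_neg (D : Divisor K F) : deg (-D) = - deg D := (degHom K F).map_neg D

theorem deg_sub (D E : Divisor K F) : deg (D - E) = deg D - deg E := (degHom K F).map_sub D E

theorem deg_zsmul (n : ℤ) (D : Divisor K F) : deg (n • D) = n * deg D :=
  (degHom K F).map_zsmul n D

theorem deg_nonneg {D : Divisor K F} (h : 0 ≤ D) : 0 ≤ deg D :=
  Finset.sum_nonneg fun P _ => h P

theorem deg_mono {D E : Divisor K F} (h : D ≤ E) : deg D ≤ deg E := by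
  have := deg_nonneg (sub_nonneg.2 h)
  rw [deg_sub] at this
  omega

theorem le_deg {D : Divisor K F} (h : 0 ≤ D) (P : Place K F) : D P ≤ deg D := by
  classical
  have : Finsupp.single P (D P) ≤ D := fun Q => by
    rw [Finsupp.single_apply]
    split_ifs with hQ
    · rw [hQ]
    · exact h Q
  simpa using deg_mono this

theorem eq_zero_of_deg_eq_zero {D : Divisor K F} (h : 0 ≤ D) (hd : deg D = 0) : D = 0 :=
  Finsupp.ext fun P => le_antisymm ((le_deg h P).trans hd.le) (h P)

theorem mem_sec {D : Divisor K F} {f : F} : f ∈ sec D ↔ ∀ P : Place K F, P.Ge (-D P) f := Iff.rfl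

theorem sec_mono {D E : Divisor K F} (h : D ≤ E) : sec D ≤ sec E := fun _ hf P =>
  (hf P).mono (neg_le_neg (h P))

theorem mul_mem_sec {D E : Divisor K F} {f g : F} (hf : f ∈ sec D) (hg : g ∈ sec E) :
    f * g ∈ sec (D + E) := fun P => by
  rw [Finsupp.add_apply, neg_add]
  exact (hf P).mul (hg P)

/-- One more dimension at most. -/
theorem finrank_le_succ {M : Type} [AddCommGroup M] [Module K M] (V W : Submodule K M)
    [FiniteDimensional K V] (h : ∀ w1 ∈ W, w1 ∉ V → ∀ w2 ∈ W, ∃ c : K, w2 - c • w1 ∈ V) :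
    FiniteDimensional K W ∧ Module.finrank K W ≤ Module.finrank K V + 1 := by
  obtain ⟨w, hw⟩ : ∃ w : M, W ≤ V ⊔ K ∙ w := by
    by_cases hle : W ≤ V
    · exact ⟨0, hle.trans le_sup_left⟩
    · obtain ⟨w1, h1, h2⟩ := Set.not_subset.1 hle
      refine ⟨w1, fun w2 h3 => ?_⟩
      obtain ⟨c, hc⟩ := h w1 h1 h2 w2 h3
      rw [← sub_add_cancel w2 (c • w1)]
      exact Submodule.add_mem_sup hc (Submodule.smul_mem _ _ (Submodule.mem_span_singleton_self _))
  refine ⟨Submodule.finiteDimensional_of_le hw, (Submodule.finrank_mono hw).trans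
    ((Submodule.finrank_add_le_finrank_add_finrank _ _).trans ?_)⟩
  have := finrank_span_le_card (R := K) ({w} : Set M)
  simp only [Set.toFinset_singleton, Finset.card_singleton] at this
  omega

variable [IsFF K F] [CharZero K]

theorem finite_ord (f : F) : (Function.support fun P : Place K F => ord P f).Finite := by
  rcases eq_or_ne f 0 with rfl | hf
  · simp
  · exact isFF_elim K F fun _ _ _ _ _ _ _ hx => hx.finite_ord hf

variable (K) in
/-- The divisor of a function (zero for the zero function). -/
noncomputable def div (f : F) : Divisor K F := Finsupp.ofSupportFinite _ (finite_ord f)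

@[simp] theorem div_apply (f : F) (P : Place K F) : div K f P = ord P f := rfl

theorem div_mul {f g : F} (hf : f ≠ 0) (hg : g ≠ 0) : div K (f * g) = div K f + div K g :=
  Finsupp.ext fun P => ord_mul P hf hg

theorem div_inv (f : F) : div K f⁻¹ = - div K f := Finsupp.ext fun P => ord_inv P f

theorem div_div {f g : F} (hf : f ≠ 0) (hg : g ≠ 0) : div K (f / g) = div K f - div K g :=
  Finsupp.ext fun P => ord_div P hf hg

theorem div_zpow (f : F) (n : ℤ) : div K (f ^ n) = n • div K f :=
  Finsupp.ext fun P => ord_zpow P f n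

theorem div_pow (f : F) (n : ℕ) : div K (f ^ n) = (n : ℤ) • div K f :=
  Finsupp.ext fun P => ord_pow P f n

@[simp] theorem div_const (c : K) : div K (algebraMap K F c) = 0 :=
  Finsupp.ext fun P => ord_const P c

@[simp] theorem div_zero : div K (0 : F) = 0 := Finsupp.ext fun P => ord_zero P

@[simp] theorem div_one : div K (1 : F) = 0 := Finsupp.ext fun P => ord_one P

theorem div_neg (f : F) : div K (-f) = div K f := Finsupp.ext fun P => ord_neg P f

theorem div_smul {c : K} (hc : c ≠ 0) (f : F) : div K (c • f) = div K f :=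
  Finsupp.ext fun P => ord_smul P hc f

theorem mem_sec_iff {D : Divisor K F} {f : F} (hf : f ≠ 0) : f ∈ sec D ↔ 0 ≤ div K f + D := by
  rw [mem_sec, Finsupp.le_def]
  refine forall_congr' fun P => ?_
  rw [P.ge_iff hf, Finsupp.add_apply, div_apply, Finsupp.zero_apply]
  omega

variable [IsAlgClosed K]

theorem residue (P : Place K F) {g : F} (hg : P.v g ≤ 1) :
    ∃ c : K, P.v (g - algebraMap K F c) < 1 :=
  isFF_elim K F fun _ _ _ _ _ _ _ hx => hx.residue P hg

theorem val_spec (P : Place K F) {g : F} (hg : P.v g ≤ 1) :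
    P.v (g - algebraMap K F (val P g)) < 1 :=
  isFF_elim K F fun _ _ _ _ _ _ _ hx => hx.val_spec P hg

theorem val_add (P : Place K F) {f g : F} (hf : P.v f ≤ 1) (hg : P.v g ≤ 1) :
    val P (f + g) = val P f + val P g := by
  refine val_eq ?_
  rw [map_add, add_sub_add_comm]
  exact P.v.map_add_lt (val_spec P hf) (val_spec P hg)

theorem val_mul (P : Place K F) {f g : F} (hf : P.v f ≤ 1) (hg : P.v g ≤ 1) :
    val P (f * g) = val P f * val P g := by
  refine val_eq ?_
  have : f * g - algebraMap K F (val P f * val P g) = (f - algebraMap K F (val P f)) * g +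
      (g - algebraMap K F (val P g)) * algebraMap K F (val P f) := by
    rw [map_mul]
    ring
  rw [this]
  exact P.v.map_add_lt (v_mul_lt (val_spec P hf) hg) (v_mul_lt (val_spec P hg) (P.triv _))

theorem val_eq_zero_iff (P : Place K F) {f : F} (hf : P.v f ≤ 1) : val P f = 0 ↔ P.v f < 1 := by
  constructor
  · intro h
    simpa [h] using val_spec P hf
  · intro h
    exact val_eq (by simpa using h)

theorem finsum_ord {f : F} (hf : f ≠ 0) : ∑ᶠ P : Place K F, ord P f = 0 :=
  isFF_elim K F fun _ _ _ _ _ _ _ hx => hx.deg_zero hf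

@[simp] theorem deg_div (f : F) : deg (div K f) = 0 := by
  rcases eq_or_ne f 0 with rfl | hf
  · simp [deg_eq_finsum]
  · rw [deg_eq_finsum]
    exact finsum_ord hf

instance : Nonempty (Place K F) :=
  isFF_elim K F fun _ _ _ _ _ _ _ hx => (hx.exists_place_inf F).nonempty

theorem exists_place_of_transcendental {x : F} (hx : Transcendental K x) (a : K) :
    ∃ P : Place K F, P.v (x - algebraMap K F a) < 1 := by
  have := finDim_adjoin hx
  exact (isRat_adjoin hx).exists_place F a

theorem exists_pole_of_transcendental {x : F} (hx : Transcendental K x) :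
    ∃ P : Place K F, 1 < P.v x := by
  have := finDim_adjoin hx
  exact (isRat_adjoin hx).exists_place_inf F

theorem deg_nonneg_of_mem_sec {D : Divisor K F} {f : F} (hf : f ≠ 0) (h : f ∈ sec D) :
    0 ≤ deg D := by
  have := deg_nonneg ((mem_sec_iff hf).1 h)
  rwa [deg_add, deg_div, zero_add] at this

theorem sec_eq_bot {D : Divisor K F} (h : deg D < 0) : sec D = ⊥ := by
  rw [eq_bot_iff]
  intro f hf
  by_contra h0
  exact absurd (deg_nonneg_of_mem_sec h0 hf) (not_le.2 h)

theorem sec_zero : sec (0 : Divisor K F) = K ∙ (1 : F) := by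
  ext f
  rw [Submodule.mem_span_singleton, mem_sec]
  simp only [Finsupp.zero_apply, neg_zero]
  constructor
  · intro h
    obtain ⟨c, rfl⟩ := const_of_regular h
    exact ⟨c, (Algebra.algebraMap_eq_smul_one c).symm⟩
  · rintro ⟨c, rfl⟩ P
    rw [← Algebra.algebraMap_eq_smul_one]
    exact P.ge_const c

omit [CharZero K] in
/-- Two functions with order at least `n`, the first of order exactly `n`: the leading terms are
proportional. -/
theorem exists_sub_ge (P : Place K F) {n : ℤ} {f g : F} (hf : P.Ge n f) (hf' : ¬ P.Ge (n + 1) f)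
    (hg : P.Ge n g) : ∃ c : K, P.Ge (n + 1) (g - c • f) := by
  have hf0 : f ≠ 0 := by
    rintro rfl
    exact hf' (by simp [Place.Ge])
  have hord : ord P f = n := by
    rw [ge_iff P hf0] at hf hf'
    omega
  have h1 : P.Ge 0 (g * f⁻¹) := by
    have := hg.mul (P.ge_ord f⁻¹)
    rwa [ord_inv, hord, add_neg_cancel] at this
  obtain ⟨c, hc⟩ := P.residue h1
  refine ⟨c, ?_⟩
  have := hf.mul hc
  rwa [mul_sub, mul_comm g, mul_inv_cancel_left₀ hf0, mul_comm f, ← Algebra.smul_def] at this

omit [CharZero K] in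
theorem sec_step (D : Divisor K F) (P : Place K F) [FiniteDimensional K (sec D)] :
    FiniteDimensional K (sec (D + Finsupp.single P 1)) ∧
      h0 (D + Finsupp.single P 1) ≤ h0 D + 1 := by
  classical
  refine finrank_le_succ _ _ fun f hf hf' g hg => ?_
  have hne : ∀ {u : F}, u ∈ sec (D + Finsupp.single P 1) → ∀ Q, Q ≠ P → Q.Ge (-D Q) u := by
    intro u hu Q hQ
    have := hu Q
    rwa [Finsupp.add_apply, Finsupp.single_eq_of_ne hQ, add_zero] at this
  have hP : ∀ {u : F}, u ∈ sec (D + Finsupp.single P 1) → P.Ge (-(D P + 1)) u := by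
    intro u hu
    have := hu P
    rwa [Finsupp.add_apply, Finsupp.single_eq_same] at this
  have e : -(D P + 1) + 1 = -D P := by ring
  obtain ⟨c, hc⟩ := exists_sub_ge P (hP hf) (fun h => hf' fun Q => by
    rcases eq_or_ne Q P with rfl | hQ
    · rwa [e] at h
    · exact hne hf Q hQ) (hP hg)
  refine ⟨c, fun Q => ?_⟩
  rcases eq_or_ne Q P with rfl | hQ
  · rwa [e] at hc
  · exact hne (Submodule.sub_mem _ hg (Submodule.smul_mem _ c hf)) Q hQ

theorem sec_finite_aux (n : ℕ) (D : Divisor K F) (h : deg D < n) :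
    FiniteDimensional K (sec D) ∧ h0 D ≤ n := by
  induction n generalizing D with
  | zero =>
    rw [h0, sec_eq_bot (by simpa using h)]
    exact ⟨inferInstance, by simp⟩
  | succ n ih =>
    obtain ⟨P⟩ : Nonempty (Place K F) := inferInstance
    obtain ⟨h1, h2⟩ := ih (D - Finsupp.single P 1) (by
      rw [deg_sub, deg_single]
      push_cast at h
      omega)
    have := sec_step (D - Finsupp.single P 1) P
    rw [sub_add_cancel] at this
    exact ⟨this.1, this.2.trans (by omega)⟩

instance finiteDimensional_sec (D : Divisor K F) : FiniteDimensional K (sec D) :=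
  (sec_finite_aux (deg D + 1).toNat D (by omega)).1

theorem h0_le_deg {D : Divisor K F} (h : -1 ≤ deg D) : (h0 D : ℤ) ≤ deg D + 1 := by
  have := (sec_finite_aux (deg D + 1).toNat D (by omega)).2
  omega

theorem h0_add_single_le (D : Divisor K F) (P : Place K F) :
    h0 (D + Finsupp.single P 1) ≤ h0 D + 1 := (sec_step D P).2

theorem h0_mono {D E : Divisor K F} (h : D ≤ E) : h0 D ≤ h0 E :=
  Submodule.finrank_mono (sec_mono h)

theorem h0_zero : h0 (0 : Divisor K F) = 1 := by
  rw [h0, sec_zero, finrank_span_singleton one_ne_zero]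

/-- Adding an effective divisor raises `h0` by at most its degree. -/
theorem h0_add_le (D : Divisor K F) {E : Divisor K F} (hE : 0 ≤ E) :
    (h0 (D + E) : ℤ) ≤ h0 D + deg E := by
  obtain ⟨n, hn⟩ : ∃ n : ℕ, deg E = n := ⟨(deg E).toNat, (Int.toNat_of_nonneg (deg_nonneg hE)).symm⟩
  induction n generalizing E with
  | zero => simp [eq_zero_of_deg_eq_zero hE hn]
  | succ n ih =>
    classical
    obtain ⟨P, hP⟩ : ∃ P, E P ≠ 0 := by
      by_contra hcon
      push Not at hcon
      rw [Finsupp.ext hcon (g := 0), deg_zero] at hn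
      omega
    have h1 : 0 ≤ E - Finsupp.single P 1 := fun Q => by
      have := hE Q
      rw [Finsupp.sub_apply, Finsupp.single_apply]
      simp only [Finsupp.coe_zero, Pi.zero_apply] at this ⊢
      split_ifs with hQ
      · subst hQ
        omega
      · omega
    have h2 : deg (E - Finsupp.single P 1) = n := by
      rw [deg_sub, deg_single, hn]
      push_cast
      ring
    have h3 := ih h1 h2
    have h4 := h0_add_single_le (D + (E - Finsupp.single P 1)) P
    rw [add_assoc, sub_add_cancel] at h4
    rw [h2] at h3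
    rw [hn]
    push_cast
    omega

end divisors

section prod

variable {L : Type} [Field L] [Algebra K L] [Algebra L F] [IsScalarTower K L F]
  [FiniteDimensional L F] [CharZero K] [IsAlgClosed K] {x : L}

open Classical in
/-- The norm as a product over the zeros and poles. -/
theorem IsRat.norm_prod (hx : IsRat K x) {h : F} (hh : h ≠ 0) :
    ∃ c : K, c ≠ 0 ∧ ∀ s : Finset (Place K F), (∀ P, ord P h ≠ 0 → P ∈ s) →
      Algebra.norm L h = algebraMap K L c *
        ∏ P ∈ s.filter (fun P => P.v (algebraMap L F x) ≤ 1),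
          (x - algebraMap K L (val P (algebraMap L F x))) ^ ord P h := by
  obtain ⟨p, q, hq, hN⟩ := hx.gen (Algebra.norm L h)
  have hp : p ≠ 0 := by
    rintro rfl
    rw [map_zero, zero_div, Algebra.norm_eq_zero_iff] at hN
    exact hh hN
  have hne : ∀ a : K, x - algebraMap K L a ≠ 0 := fun a => by
    simpa using hx.aeval_ne_zero (X_sub_C_ne_zero a)
  let w : K → Additive Lˣ := fun a => Additive.ofMul (Units.mk0 _ (hne a))
  have h1 := hx.norm_weight w hh hq hN
  have h2 : ∀ r : K[X], aeval x r = algebraMap K L r.leadingCoeff *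
      ((Additive.toMul (r.roots.map w).sum : Lˣ) : L) := fun r => by
    conv_lhs => rw [(IsAlgClosed.splits r).eq_prod_roots]
    rw [map_mul, aeval_C]
    congr 1
    generalize r.roots = t
    induction t using Multiset.induction_on with
    | empty => simp
    | cons a t ih => simp [ih, w]
  refine ⟨p.leadingCoeff / q.leadingCoeff,
    div_ne_zero (leadingCoeff_ne_zero.2 hp) (leadingCoeff_ne_zero.2 hq), fun s hs => ?_⟩
  rw [finsum_mem_eq_sum_of_inter_support_eq (t := s.filter fun P => P.v (algebraMap L F x) ≤ 1)]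
    at h1
  · have h3 := congrArg (fun u : Additive Lˣ => ((Additive.toMul u : Lˣ) : L)) h1
    simp only [toMul_sum, toMul_zsmul, toMul_sub, Units.coe_prod, Units.val_zpow_eq_zpow_val,
      Units.val_div_eq_div_val, w, toMul_ofMul, Units.val_mk0] at h3
    rw [h3, hN, h2 p, h2 q, map_div₀, mul_div_mul_comm]
  · ext P
    simp only [Set.mem_inter_iff, Set.mem_ofPred_eq, Function.mem_support, Finset.coe_filter]
    constructor
    · rintro ⟨h3, h4⟩
      exact ⟨⟨hs P fun h0 => h4 (by rw [h0, zero_smul]), h3⟩, h4⟩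
    · rintro ⟨⟨-, h3⟩, h4⟩
      exact ⟨h3, h4⟩

end prod

section adjoin

open IntermediateField

variable [IsFF K F] [CharZero K] [IsAlgClosed K] {z : F}

open Classical in
/-- The norm product formula for a transcendental function `z`, inside `F`. -/
theorem norm_prod (hz : Transcendental K z) {h : F} (hh : h ≠ 0) :
    ∃ c : K, c ≠ 0 ∧ algebraMap (adjoin K {z}) F (Algebra.norm (adjoin K {z}) h) =
      algebraMap K F c * ∏ P ∈ (div K h).support.filter (fun P => P.v z ≤ 1),
        (z - algebraMap K F (val P z)) ^ ord P h := by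
  have := finDim_adjoin hz
  obtain ⟨c, hc, h1⟩ := (isRat_adjoin hz).norm_prod hh
  refine ⟨c, hc, ?_⟩
  rw [h1 (div K h).support fun P hP => Finsupp.mem_support_iff.2 hP, map_mul, map_prod]
  simp only [map_zpow₀, map_sub, ← IsScalarTower.algebraMap_apply, AdjoinSimple.algebraMap_gen]

/-- The degree of `z` is the sum of its pole orders. -/
theorem finsum_pole (hz : Transcendental K z) :
    ∑ᶠ P ∈ {P : Place K F | 1 < P.v z}, ord P z = - Module.finrank (adjoin K {z}) F := by
  have := finDim_adjoin hz
  exact (isRat_adjoin hz).sum_fibre_inf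

/-- The degree of `z` is the number of points in a fibre, with multiplicity. -/
theorem finsum_fibre (hz : Transcendental K z) (a : K) :
    ∑ᶠ P ∈ {P : Place K F | P.v (z - algebraMap K F a) < 1}, ord P (z - algebraMap K F a) =
      Module.finrank (adjoin K {z}) F := by
  have := finDim_adjoin hz
  exact (isRat_adjoin hz).sum_fibre a

/-- A function with a single zero of order `n` has degree `n`. -/
theorem finrank_eq_of_unique_zero {P : Place K F} (hP : 0 < ord P z)
    (hu : ∀ Q : Place K F, 0 < ord Q z → Q = P) :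
    (Module.finrank (adjoin K {z}) F : ℤ) = ord P z := by
  have hz0 : z ≠ 0 := by
    rintro rfl
    simp at hP
  have h1 := finsum_fibre (P.transcendental hP.ne') 0
  simp only [map_zero, sub_zero] at h1
  have : {Q : Place K F | Q.v z < 1} = {P} := by
    ext Q
    rw [Set.mem_ofPred_eq, v_lt_one_iff Q hz0, Set.mem_singleton_iff]
    exact ⟨hu Q, fun h => h ▸ hP⟩
  rw [this, finsum_mem_singleton] at h1
  exact h1.symm

end adjoin

end Pool.Agent.MP_79c67d_ag.FF

end MrgPart0

-- ======== part 1: formerly Pool.Agent.MP_79c67d_ag.Riemann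
section MrgPart1

/-! Riemann's theorem: `deg D - h0 D` is bounded; the genus. -/

set_option linter.unusedSectionVars false

namespace Pool.Agent.MP_79c67d_ag

open FF Module IntermediateField

variable {K F : Type} [Field K] [Field F] [Algebra K F] [IsFF K F] [CharZero K] [IsAlgClosed K]

theorem self_mem_sec (f : F) : f ∈ sec (- div K f) := fun P => by
  simpa using P.ge_ord f

theorem h0_sub_div (D : Divisor K F) {z : F} (hz : z ≠ 0) : h0 (D - div K z) = h0 D := by
  have key : ∀ (D : Divisor K F) {z : F}, z ≠ 0 → h0 D ≤ h0 (D - div K z) := by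
    intro D z hz
    let m : sec D →ₗ[K] sec (D - div K z) :=
      ((LinearMap.mulRight K z).domRestrict (sec D)).codRestrict _ fun f => by
        rw [sub_eq_add_neg]; exact mul_mem_sec f.2 (self_mem_sec z)
    refine LinearMap.finrank_le_finrank_of_injective (f := m) fun f g h => ?_
    have := congrArg Subtype.val h
    exact Subtype.ext (mul_right_cancel₀ hz this)
  refine le_antisymm ?_ (key D hz)
  have := key (D - div K z) (inv_ne_zero hz)
  rwa [div_inv, sub_neg_eq_add, sub_add_cancel] at this

theorem h0_add_div (D : Divisor K F) {z : F} (hz : z ≠ 0) : h0 (D + div K z) = h0 D := by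
  have := h0_sub_div D (inv_ne_zero hz)
  rwa [div_inv, sub_neg_eq_add] at this

theorem h0_eq_zero {D : Divisor K F} (h : deg D < 0) : h0 D = 0 := by
  rw [h0, sec_eq_bot h, finrank_bot]

theorem exists_ne_of_h0 {D : Divisor K F} (h : 0 < h0 D) : ∃ f ∈ sec D, f ≠ 0 := by
  by_contra hn
  push Not at hn
  have : sec D = ⊥ := (Submodule.eq_bot_iff _).2 hn
  rw [h0, this, finrank_bot] at h
  exact lt_irrefl _ h

theorem h0_pos {D : Divisor K F} {f : F} (hf : f ∈ sec D) (h0' : f ≠ 0) : 0 < h0 D := by
  rw [h0, finrank_pos_iff_exists_ne_zero]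
  exact ⟨⟨f, hf⟩, fun h => h0' (congrArg Subtype.val h)⟩

theorem eq_zero_of_h0 {D : Divisor K F} (h : h0 D = 0) {f : F} (hf : f ∈ sec D) : f = 0 := by
  by_contra hn
  have := h0_pos hf hn
  omega

theorem defect_mono {D E : Divisor K F} (h : D ≤ E) : deg D - h0 D ≤ deg E - h0 E := by
  have := h0_add_le D (sub_nonneg.2 h)
  rw [add_sub_cancel, deg_sub] at this
  omega

theorem exists_common {ι : Type} [Fintype ι] (u : ι → F) :
    ∃ C : Divisor K F, 0 ≤ C ∧ ∀ i, u i ∈ sec C := by
  refine ⟨∑ i, (- div K (u i)) ⊔ 0, Finset.sum_nonneg fun i _ => le_sup_right, fun i => ?_⟩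
  refine sec_mono ((le_sup_left (b := 0)).trans ?_) (self_mem_sec (u i))
  exact Finset.single_le_sum (f := fun i => (- div K (u i)) ⊔ 0) (fun i _ => le_sup_right)
    (Finset.mem_univ i)

theorem deg_pole {x : F} (hx : Transcendental K x) :
    deg ((- div K x) ⊔ 0) = finrank (adjoin K {x}) F := by
  have h := finsum_pole hx
  rw [finsum_mem_def] at h
  rw [deg_eq_finsum, ← neg_neg (finrank (adjoin K {x}) F : ℤ), ← h, ← finsum_neg_distrib]
  refine finsum_congr fun P => ?_
  rw [Finsupp.sup_apply, Finsupp.neg_apply, div_apply, Finsupp.zero_apply]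
  by_cases hP : 1 < P.v x
  · rw [Set.indicator_of_mem (by exact hP)]
    have := (one_lt_v_iff P x).1 hP
    omega
  · rw [Set.indicator_of_notMem (by exact hP)]
    have := mt (one_lt_v_iff P x).2 hP
    omega

theorem li_pow {A : Type} [CommRing A] [Algebra K A] {x : A} (hx : Transcendental K x) :
    LinearIndependent K fun j : ℕ => x ^ j := by
  have := (Polynomial.basisMonomials K).linearIndependent.map' (Polynomial.aeval x).toLinearMap
    (LinearMap.ker_eq_bot.2 ((transcendental_iff_injective).1 hx))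
  have h : (fun j : ℕ => x ^ j) =
      (Polynomial.aeval x).toLinearMap ∘ Polynomial.basisMonomials K := by
    ext j
    simp
  rw [h]; exact this

theorem riemann_aux {x : F} (hx : Transcendental K x) :
    ∃ γ : ℤ, ∀ l : ℕ, deg ((l : ℤ) • ((- div K x) ⊔ 0)) - h0 ((l : ℤ) • ((- div K x) ⊔ 0)) ≤ γ := by
  have := finDim_adjoin hx
  set B : Divisor K F := (- div K x) ⊔ 0 with hB
  let u := Module.finBasis (adjoin K {x}) F
  obtain ⟨C, hC, hu⟩ := exists_common (K := K) u
  refine ⟨deg C, fun l => ?_⟩
  have hx' : Transcendental K (AdjoinSimple.gen K x) := by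
    rw [← transcendental_algebraMap_iff (algebraMap (adjoin K {x}) F).injective]
    exact hx
  have h1 : LinearIndependent K fun j : Fin (l + 1) => AdjoinSimple.gen K x ^ (j : ℕ) :=
    (li_pow hx').comp _ Fin.val_injective
  have h2 := linearIndependent_smul h1 u.linearIndependent
  have h3 : ∀ p : Fin (l + 1) × Fin (finrank (adjoin K {x}) F),
      AdjoinSimple.gen K x ^ (p.1 : ℕ) • u p.2 ∈ sec ((l : ℤ) • B + C) := by
    rintro ⟨j, i⟩
    change x ^ (j : ℕ) * u i ∈ _
    refine mul_mem_sec (fun P => ?_) (hu i)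
    refine P.ge_of_le ?_
    have h4 : (j : ℤ) ≤ l := by have := j.2; omega
    have h5 : - P.ord x ≤ B P := by
      rw [hB, Finsupp.sup_apply]; exact le_sup_left
    have h6 : 0 ≤ B P := by
      rw [hB, Finsupp.sup_apply]; exact le_sup_right
    rw [P.ord_pow, Finsupp.smul_apply, smul_eq_mul]
    have : (0 : ℤ) ≤ j := by positivity
    nlinarith
  have h4 : LinearIndependent K fun p => (⟨_, h3 p⟩ : sec ((l : ℤ) • B + C)) :=
    LinearIndependent.of_comp (sec _).subtype h2
  have h5 := h4.fintype_card_le_finrank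
  rw [Fintype.card_prod, Fintype.card_fin, Fintype.card_fin] at h5
  have h6 := defect_mono (le_add_of_nonneg_right (a := (l : ℤ) • B) hC)
  have h7 : ((l + 1) * finrank (adjoin K {x}) F : ℤ) ≤ h0 ((l : ℤ) • B + C) := by
    exact_mod_cast h5
  rw [deg_add, deg_zsmul, deg_pole hx] at h6
  rw [deg_zsmul, deg_pole hx]
  have : (0 : ℤ) ≤ finrank (adjoin K {x}) F := by positivity
  linarith

variable (K F) in
theorem riemann_bound : ∃ γ : ℤ, ∀ D : Divisor K F, deg D - h0 D ≤ γ := by
  obtain ⟨x, hx⟩ := exists_transcendental K F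
  have := finDim_adjoin hx
  obtain ⟨γ, hγ⟩ := riemann_aux hx
  set B : Divisor K F := (- div K x) ⊔ 0 with hB
  have hB1 : 1 ≤ deg B := by
    rw [deg_pole hx]; exact_mod_cast Module.finrank_pos
  refine ⟨γ, fun D => (defect_mono (le_sup_left (b := 0))).trans ?_⟩
  have hC : (0 : Divisor K F) ≤ D ⊔ 0 := le_sup_right
  generalize D ⊔ 0 = C at hC
  obtain ⟨l, hl⟩ : ∃ l : ℕ, γ + deg C < l := ⟨(γ + deg C).toNat + 1, by omega⟩
  have h1 := hγ l
  have h2 := h0_add_le ((l : ℤ) • B - C) hC
  rw [sub_add_cancel] at h2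
  rw [deg_zsmul] at h1
  have h3 : (l : ℤ) ≤ l * deg B := by nlinarith
  obtain ⟨z, hz, hz0⟩ := exists_ne_of_h0 (D := (l : ℤ) • B - C) (by omega)
  have h4 : C - div K z ≤ (l : ℤ) • B := by
    have := (mem_sec_iff hz0).1 hz
    rw [← sub_nonneg]
    convert this using 1
    abel
  have h5 := defect_mono h4
  rw [h0_sub_div _ hz0, deg_sub, deg_div, deg_zsmul] at h5
  omega

variable (K F) in
theorem genus_spec : (∀ D : Divisor K F, deg D + 1 - h0 D ≤ genus K F) ∧
    ∃ D : Divisor K F, (genus K F : ℤ) = deg D + 1 - h0 D := by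
  obtain ⟨γ, hγ⟩ := riemann_bound K F
  have hb : BddAbove {n : ℕ | ∃ D : Divisor K F, (n : ℤ) = deg D + 1 - h0 D} :=
    ⟨(γ + 1).toNat, by
      rintro n ⟨D, hD⟩
      have := hγ D
      omega⟩
  refine ⟨fun D => ?_, Nat.sSup_mem (s := {n : ℕ | ∃ D : Divisor K F,
    (n : ℤ) = deg D + 1 - h0 D}) ⟨0, 0, by simp [h0_zero]⟩ hb⟩
  rcases le_or_gt (deg D + 1 - h0 D) 0 with h | h
  · omega
  · have : (deg D + 1 - h0 D).toNat ≤ genus K F := le_csSup hb ⟨D, by omega⟩
    omega

theorem riemann_ineq (D : Divisor K F) : deg D + 1 - genus K F ≤ h0 D := by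
  have := (genus_spec K F).1 D
  omega

variable (K F) in
theorem exists_nonspecial : ∃ D0 : Divisor K F, ∀ D, D0 ≤ D → (h0 D : ℤ) = deg D + 1 - genus K F := by
  obtain ⟨D0, h⟩ := (genus_spec K F).2
  refine ⟨D0, fun D hD => ?_⟩
  have h1 := defect_mono hD
  have h2 := riemann_ineq D
  omega

/-- Descending induction along effective divisors. -/
theorem div_induction {R : Divisor K F → Prop} (step : ∀ D P, R (D + Finsupp.single P 1) → R D)
    {D E : Divisor K F} (h : D ≤ E) (hE : R E) : R D := by
  classical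
  obtain ⟨n, hn⟩ : ∃ n : ℕ, deg E - deg D = n :=
    ⟨(deg E - deg D).toNat, by have := deg_mono h; omega⟩
  induction n generalizing D with
  | zero =>
    have := eq_zero_of_deg_eq_zero (sub_nonneg.2 h) (by rw [deg_sub]; exact hn)
    rwa [← sub_eq_zero.1 this]
  | succ n ih =>
    obtain ⟨P, hP⟩ : ∃ P, D P ≠ E P := by
      by_contra hcon
      push Not at hcon
      rw [Finsupp.ext hcon] at hn
      omega
    refine step D P (ih (fun Q => ?_) ?_)
    · have := h Q
      rw [Finsupp.add_apply, Finsupp.single_apply]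
      split_ifs with hQ
      · subst hQ; omega
      · omega
    · rw [deg_add, deg_single]; push_cast at hn; omega

end Pool.Agent.MP_79c67d_ag

end MrgPart1

-- marker of a merged file
example : 731051 + 804286 = 731051 + 804286 := rfl
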