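import Mathlib.RingTheory.Finiteness.ModuleFinitePresentation
import Mathlib.Data.Finsupp.Pointwise
import Mathlib.RingTheory.TotallySplit
import Mathlib.RingTheory.Etale.Weakly
import Pool.Agent.MP_79c67d_ag.Riemann

-- ======== part 0: formerly Pool.Agent.MP_79c67d_ag.RR
section MrgPart0

/-! The Riemann-Roch theorem through Weil differentials. -/

set_option linter.unusedSectionVars false

namespace Pool.Agent.MP_79c67d_ag

open FF Module

variable {K F : Type} [Field K] [Field F] [Algebra K F] [IsFF K F] [CharZero K] [IsAlgClosed K]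

variable (K F) in
/-- Adeles. -/
def Adele : Submodule F (Place K F → F) where
  carrier := {α | ∃ D : Divisor K F, ∀ P : Place K F, P.Ge (-D P) (α P)}
  add_mem' := by
    rintro α β ⟨D, hD⟩ ⟨E, hE⟩
    exact ⟨D ⊔ E, fun P => ((hD P).mono (neg_le_neg ((le_sup_left : D ≤ D ⊔ E) P))).add
      ((hE P).mono (neg_le_neg ((le_sup_right : E ≤ D ⊔ E) P)))⟩
  zero_mem' := ⟨0, fun P => P.ge_zero _⟩
  smul_mem' := by
    rintro f α ⟨D, hD⟩
    refine ⟨- div K f + D, fun P => ?_⟩
    rw [Finsupp.add_apply, neg_add]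
    exact (self_mem_sec f P).mul (hD P)

/-- Adeles with poles bounded by `D`. -/
def AD (D : Divisor K F) : Submodule K (Adele K F) where
  carrier := {α | ∀ P : Place K F, P.Ge (-D P) (α.1 P)}
  add_mem' := fun ha hb P => (ha P).add (hb P)
  zero_mem' := fun P => P.ge_zero _
  smul_mem' := fun c _ ha P => (ha P).smul c

variable (K) in
/-- Principal adeles. -/
noncomputable def diag : F →ₗ[K] Adele K F where
  toFun f := ⟨fun _ => f, - div K f, self_mem_sec (K := K) f⟩
  map_add' _ _ := rfl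
  map_smul' _ _ := rfl

/-- Weil differentials with divisor at least `D`. -/
def Om (D : Divisor K F) : Submodule K (Dual K (Adele K F)) where
  carrier := {ω | (∀ α ∈ AD D, ω α = 0) ∧ ∀ f, ω (diag K f) = 0}
  add_mem' := fun ha hb => ⟨fun α h => by simp [ha.1 α h, hb.1 α h], fun f => by
    simp [ha.2 f, hb.2 f]⟩
  zero_mem' := ⟨fun _ _ => rfl, fun _ => rfl⟩
  smul_mem' := fun c _ ha => ⟨fun α h => by simp [ha.1 α h], fun f => by simp [ha.2 f]⟩

theorem AD_mono {D E : Divisor K F} (h : D ≤ E) : AD D ≤ AD E := fun _ hf P =>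
  (hf P).mono (neg_le_neg (h P))

theorem Om_anti {D E : Divisor K F} (h : D ≤ E) : Om E ≤ Om D := fun _ hω =>
  ⟨fun α hα => hω.1 α (AD_mono h hα), hω.2⟩

theorem AD_of_ge {D : Divisor K F} {P : Place K F} {α : Adele K F}
    (h : α ∈ AD (D + Finsupp.single P 1)) (hP : P.Ge (-D P) (α.1 P)) : α ∈ AD D := by
  intro Q
  rcases eq_or_ne Q P with rfl | hQ
  · exact hP
  · have := h Q
    rwa [Finsupp.add_apply, Finsupp.single_eq_of_ne hQ, add_zero] at this

theorem AD_step {D : Divisor K F} {P : Place K F} {β α : Adele K F}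
    (hβ : β ∈ AD (D + Finsupp.single P 1)) (hβ' : β ∉ AD D)
    (hα : α ∈ AD (D + Finsupp.single P 1)) : ∃ c : K, α - c • β ∈ AD D := by
  have h1 := hβ P
  have h2 := hα P
  rw [Finsupp.add_apply, Finsupp.single_eq_same] at h1 h2
  have e : -(D P + 1) + 1 = -D P := by ring
  obtain ⟨c, hc⟩ := exists_sub_ge P h1 (fun h => hβ' (AD_of_ge hβ (by rwa [e] at h))) h2
  rw [e] at hc
  exact ⟨c, AD_of_ge (Submodule.sub_mem _ hα (Submodule.smul_mem _ _ hβ)) hc⟩

theorem Om_of {D : Divisor K F} {P : Place K F} {β : Adele K F} {ω : Dual K (Adele K F)}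
    (hβ : β ∈ AD (D + Finsupp.single P 1)) (hβ' : β ∉ AD D) (hω : ω ∈ Om D) (h : ω β = 0) :
    ω ∈ Om (D + Finsupp.single P 1) := by
  refine ⟨fun α hα => ?_, hω.2⟩
  obtain ⟨c, hc⟩ := AD_step hβ hβ' hα
  have := hω.1 _ hc
  rwa [map_sub, map_smul, h, smul_zero, sub_zero] at this

theorem le_add_pt (D : Divisor K F) (P : Place K F) : D ≤ D + Finsupp.single P 1 :=
  le_add_of_nonneg_right (Finsupp.single_nonneg.2 zero_le_one)

theorem Om_eq_of_h0 {D : Divisor K F} {P : Place K F} (h : h0 D < h0 (D + Finsupp.single P 1)) :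
    Om D = Om (D + Finsupp.single P 1) := by
  refine le_antisymm (fun ω hω => ?_) (Om_anti (le_add_pt D P))
  obtain ⟨f, hf, hf'⟩ : ∃ f ∈ sec (D + Finsupp.single P 1), f ∉ sec D := by
    by_contra hn
    push Not at hn
    exact absurd (Submodule.finrank_mono hn) (not_le.2 h)
  exact Om_of (β := diag K f) hf hf' hω (hω.2 f)

theorem Om_step (D : Divisor K F) (P : Place K F)
    [FiniteDimensional K (Om (D + Finsupp.single P 1))] :
    FiniteDimensional K (Om D) ∧ finrank K (Om D) ≤ finrank K (Om (D + Finsupp.single P 1)) + 1 := by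
  refine finrank_le_succ _ _ fun w1 h1 h1' w2 h2 => ?_
  obtain ⟨β, hβ, hβ1⟩ : ∃ β ∈ AD (D + Finsupp.single P 1), w1 β ≠ 0 := by
    by_contra hn
    push Not at hn
    exact h1' ⟨hn, h1.2⟩
  refine ⟨w2 β / w1 β, Om_of hβ (fun h => hβ1 (h1.1 _ h))
    (Submodule.sub_mem _ h2 (Submodule.smul_mem _ _ h1)) ?_⟩
  simp [hβ1]

theorem Om_lt {D : Divisor K F} {P : Place K F} (h : h0 (D + Finsupp.single P 1) ≤ h0 D) :
    Om (D + Finsupp.single P 1) < Om D := by
  classical
  have hs : sec D = sec (D + Finsupp.single P 1) :=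
    Submodule.eq_of_le_of_finrank_le (sec_mono (le_add_pt D P)) h
  obtain ⟨t, ht, ht1⟩ := P.exists_ord (-(D P + 1))
  have hτ : ∀ Q : Place K F, Q.Ge (-(D + Finsupp.single P 1 : Divisor K F) Q)
      ((Pi.single P t : Place K F → F) Q) := by
    intro Q
    rcases eq_or_ne Q P with rfl | hQ
    · rw [Pi.single_eq_same, Finsupp.add_apply, Finsupp.single_eq_same]
      exact Q.ge_of_le ht1.ge
    · rw [Pi.single_eq_of_ne hQ]; exact Q.ge_zero _
  let τ : Adele K F := ⟨Pi.single P t, _, hτ⟩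
  have hτ1 : τ ∉ AD D ⊔ LinearMap.range (diag K) := by
    intro hm
    obtain ⟨α, hα, _, ⟨f, rfl⟩, e⟩ := Submodule.mem_sup.1 hm
    have h1 : diag K f ∈ AD (D + Finsupp.single P 1) := by
      rw [eq_sub_of_add_eq' e]
      exact Submodule.sub_mem _ hτ (AD_mono (le_add_pt D P) hα)
    have h2 : f ∈ sec D := hs ▸ h1
    have h3 : τ ∈ AD D := e ▸ Submodule.add_mem _ hα h2
    have h4 := h3 P
    simp only [τ, Pi.single_eq_same] at h4
    have := h4.le ht
    omega
  obtain ⟨ω, hω, hω'⟩ := Submodule.exists_le_ker_of_notMem hτ1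
  refine lt_of_le_of_ne (Om_anti (le_add_pt D P)) fun e => hω ?_
  have : ω ∈ Om D := ⟨fun α hα => hω' (Submodule.mem_sup_left hα),
    fun f => hω' (Submodule.mem_sup_right ⟨f, rfl⟩)⟩
  rw [← e] at this
  exact this.1 τ hτ

theorem Om_eq_bot {D0 : Divisor K F}
    (h : ∀ D, D0 ≤ D → (h0 D : ℤ) = deg D + 1 - genus K F) {D : Divisor K F} (hD : D0 ≤ D) :
    Om D = ⊥ := by
  rw [eq_bot_iff]
  intro ω hω
  refine LinearMap.ext fun α => ?_
  obtain ⟨E, hE⟩ := α.2
  have key : D ≤ D → Om D ≤ Om (D ⊔ E) := by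
    refine div_induction (R := fun G => D ≤ G → Om G ≤ Om (D ⊔ E)) (fun G P ih hG => ?_)
      le_sup_left fun _ => le_rfl
    have h1 := h G (hD.trans hG)
    have h2 := h _ (hD.trans (hG.trans (le_add_pt G P)))
    rw [deg_add, deg_single] at h2
    rw [Om_eq_of_h0 (P := P) (by omega)]
    exact ih (hG.trans (le_add_pt G P))
  exact (key le_rfl hω).1 α (AD_mono le_sup_right hE)

theorem Om_dim (D : Divisor K F) : FiniteDimensional K (Om D) ∧
    (finrank K (Om D) : ℤ) = h0 D - deg D + genus K F - 1 := by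
  obtain ⟨D0, h⟩ := exists_nonspecial K F
  refine div_induction (R := fun D => FiniteDimensional K (Om D) ∧
    (finrank K (Om D) : ℤ) = h0 D - deg D + genus K F - 1) (fun G P ih => ?_)
    (le_sup_left : D ≤ D ⊔ D0) ?_
  · obtain ⟨h1, h2⟩ := ih
    rw [deg_add, deg_single] at h2
    obtain ⟨h3, h4⟩ := Om_step G P
    refine ⟨h3, ?_⟩
    have h5 := h0_add_single_le G P
    rcases lt_or_ge (h0 G) (h0 (G + Finsupp.single P 1)) with h6 | h6
    · rw [Om_eq_of_h0 h6]; omega
    · have h7 := Submodule.finrank_lt_finrank_of_lt (Om_lt h6)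
      have h8 := h0_mono (le_add_pt G P)
      omega
  · have := h _ (le_sup_right : D0 ≤ D ⊔ D0)
    rw [Om_eq_bot h le_sup_right, finrank_bot]
    exact ⟨inferInstance, by omega⟩

/-- Multiplication of a differential by a function. -/
def tw (ω : Dual K (Adele K F)) : F →ₗ[K] Dual K (Adele K F) where
  toFun f := ω ∘ₗ (LinearMap.lsmul F (Adele K F) f).restrictScalars K
  map_add' f g := by ext α; simp
  map_smul' c f := by ext α; simp

theorem tw_apply (ω : Dual K (Adele K F)) (f : F) (α : Adele K F) : tw ω f α = ω (f • α) := rfl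

theorem tw_tw (ω : Dual K (Adele K F)) (f g : F) : tw (tw ω f) g = tw ω (f * g) := by
  ext α; simp [tw_apply, mul_smul]

theorem tw_one (ω : Dual K (Adele K F)) : tw ω 1 = ω := by ext α; simp [tw_apply]

theorem tw_mem {ω : Dual K (Adele K F)} {B D : Divisor K F} (hω : ω ∈ Om B) {f : F}
    (hf : f ∈ sec (B - D)) : tw ω f ∈ Om D := by
  refine ⟨fun α hα => hω.1 _ fun P => ?_, fun g => hω.2 (f * g)⟩
  have := (hf P).mul (hα P)
  rwa [Finsupp.sub_apply, show -(B P - D P) + -D P = -B P by ring] at this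

theorem tw_eq_zero {ω : Dual K (Adele K F)} (hω : ω ≠ 0) {f : F} (h : tw ω f = 0) : f = 0 := by
  by_contra hf
  apply hω
  rw [← tw_one ω, ← mul_inv_cancel₀ hf, ← tw_tw, h]
  ext α; simp [tw_apply]

theorem h0_le_Om {ω : Dual K (Adele K F)} (hω0 : ω ≠ 0) {B : Divisor K F} (hω : ω ∈ Om B)
    (D : Divisor K F) : h0 (B - D) ≤ finrank K (Om D) := by
  have := (Om_dim D).1
  let m : sec (B - D) →ₗ[K] Om D :=
    ((tw ω).domRestrict _).codRestrict _ fun f => tw_mem hω f.2
  refine LinearMap.finrank_le_finrank_of_injective (f := m) ?_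
  rw [injective_iff_map_eq_zero]
  intro f hf
  exact Subtype.ext (tw_eq_zero hω0 (congrArg Subtype.val hf))

theorem Om_dep {ω1 ω2 : Dual K (Adele K F)} {B : Divisor K F} (h1 : ω1 ∈ Om B) (h2 : ω2 ∈ Om B) :
    ∃ f1 f2 : F, ¬ (f1 = 0 ∧ f2 = 0) ∧ tw ω1 f1 + tw ω2 f2 = 0 := by
  by_contra hn
  push Not at hn
  obtain ⟨P⟩ : Nonempty (Place K F) := inferInstance
  obtain ⟨n, hn0, hn1⟩ : ∃ n : ℤ, 0 < n ∧ 3 * (genus K F : ℤ) - 2 * deg B < n :=
    ⟨max 1 (3 * (genus K F : ℤ) - 2 * deg B + 1), by omega, by omega⟩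
  set D : Divisor K F := Finsupp.single P (-n) with hD
  have hdeg : deg D = -n := deg_single _ _
  obtain ⟨h3, h4⟩ := Om_dim D
  let m : (sec (B - D) × sec (B - D)) →ₗ[K] Om D :=
    (((tw ω1).domRestrict _).coprod ((tw ω2).domRestrict _)).codRestrict _ fun f =>
      Submodule.add_mem _ (tw_mem h1 f.1.2) (tw_mem h2 f.2.2)
  have h5 : Function.Injective m := by
    rw [injective_iff_map_eq_zero]
    intro f hf
    by_contra h0
    refine hn f.1 f.2 (fun a b => h0 ?_) (congrArg Subtype.val hf)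
    exact Prod.ext (Subtype.ext a) (Subtype.ext b)
  have h6 := LinearMap.finrank_le_finrank_of_injective h5
  rw [finrank_prod] at h6
  have h7 := riemann_ineq (B - D)
  rw [h0_eq_zero (D := D) (by omega)] at h4
  rw [deg_sub, h0] at h7
  omega

theorem exists_max {ω : Dual K (Adele K F)} (hω0 : ω ≠ 0) {B : Divisor K F} (hω : ω ∈ Om B) :
    ∃ W : Divisor K F, ω ∈ Om W ∧ ∀ D, ω ∈ Om D → D ≤ W := by
  classical
  obtain ⟨D0, h⟩ := exists_nonspecial K F
  obtain ⟨_, ⟨W, hW, rfl⟩, hmax⟩ := Int.exists_greatest_of_bdd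
    (P := fun d => ∃ D : Divisor K F, ω ∈ Om D ∧ deg D = d)
    ⟨deg D0 + genus K F, by
      rintro _ ⟨D, hD, rfl⟩
      have h1 := h0_le_Om hω0 hD D0
      rw [Om_eq_bot h le_rfl, finrank_bot] at h1
      have h2 := riemann_ineq (D - D0)
      rw [deg_sub] at h2
      omega⟩ ⟨_, B, hω, rfl⟩
  refine ⟨W, hW, fun D hD => ?_⟩
  have h1 : ω ∈ Om (D ⊔ W) := by
    refine ⟨fun α hα => ?_, hW.2⟩
    have h2 : ∀ P : Place K F, P.Ge (-D P) (if W P ≤ D P then α.1 P else 0) := fun P => by
      split_ifs with h3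
      · have := hα P
        rwa [Finsupp.sup_apply, sup_eq_left.2 h3] at this
      · exact P.ge_zero _
    let β : Adele K F := ⟨fun P => if W P ≤ D P then α.1 P else 0, D, h2⟩
    have h3 : α - β ∈ AD W := fun P => by
      change P.Ge _ (α.1 P - if W P ≤ D P then α.1 P else 0)
      split_ifs with h3
      · rw [sub_self]; exact P.ge_zero _
      · have := hα P
        rwa [Finsupp.sup_apply, sup_eq_right.2 (not_le.1 h3).le, ← sub_zero (α.1 P)] at this
    have h4 := hW.1 _ h3
    rwa [map_sub, hD.1 β h2, sub_zero] at h4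
  have h2 := hmax _ ⟨_, h1, rfl⟩
  have h3 := eq_zero_of_deg_eq_zero (sub_nonneg.2 (le_sup_right : W ≤ D ⊔ W)) (by
    have := deg_mono (le_sup_right : W ≤ D ⊔ W)
    rw [deg_sub]; omega)
  exact sup_eq_right.1 (sub_eq_zero.1 h3)

variable (K F) in
/-- The Riemann-Roch theorem. -/
theorem riemann_roch : ∃ W : Divisor K F,
    ∀ D : Divisor K F, (h0 D : ℤ) = deg D + 1 - genus K F + h0 (W - D) := by
  obtain ⟨P⟩ : Nonempty (Place K F) := inferInstance
  obtain ⟨h1, h2⟩ := Om_dim (Finsupp.single P (-2) : Divisor K F)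
  rw [deg_single] at h2
  obtain ⟨⟨ω, hω⟩, hω0⟩ := (finrank_pos_iff_exists_ne_zero (R := K)
    (M := Om (Finsupp.single P (-2) : Divisor K F))).1 (by omega)
  have hω0' : ω ≠ 0 := fun h => hω0 (Subtype.ext h)
  obtain ⟨W, hW, hmax⟩ := exists_max hω0' hω
  refine ⟨W, fun D => ?_⟩
  obtain ⟨h3, h4⟩ := Om_dim D
  have h5 := h0_le_Om hω0' hW D
  have h6 : Om D ≤ (sec (W - D)).map (tw ω) := by
    intro η hη
    rcases eq_or_ne η 0 with rfl | hη0
    · exact Submodule.zero_mem _
    obtain ⟨f1, f2, hf, e⟩ := Om_dep (Om_anti inf_le_left hW) (Om_anti inf_le_right hη)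
    have hf2 : f2 ≠ 0 := by
      rintro rfl
      rw [map_zero, add_zero] at e
      exact hf ⟨tw_eq_zero hω0' e, rfl⟩
    have e1 : tw ω (-f1 * f2⁻¹) = η := by
      rw [← tw_tw, map_neg, neg_eq_of_add_eq_zero_right e, tw_tw, mul_inv_cancel₀ hf2, tw_one]
    generalize -f1 * f2⁻¹ = f at e1
    have hf0 : f ≠ 0 := by
      rintro rfl
      exact hη0 (by rw [← e1, map_zero])
    refine ⟨f, (mem_sec_iff hf0).2 ?_, e1⟩
    have h7 : ω ∈ Om (D - div K f) := by
      have := tw_mem (D := D - div K f) hη (f := f⁻¹) (by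
        rw [sub_sub_cancel, ← neg_neg (div K f), ← div_inv]; exact self_mem_sec _)
      rwa [← e1, tw_tw, mul_inv_cancel₀ hf0, tw_one] at this
    have := sub_nonneg.2 (hmax _ h7)
    convert this using 1
    abel
  have h7 := (Submodule.finrank_mono h6).trans (Submodule.finrank_map_le _ _)
  rw [← h0] at h7
  omega

end Pool.Agent.MP_79c67d_ag

end MrgPart0

-- ======== part 1: formerly Pool.Agent.MP_79c67d_ag.Cliff
section MrgPart1

/-! Clifford's theorem on curves without a pencil of degree two. -/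

set_option linter.unusedSectionVars false

namespace Pool.Agent.MP_79c67d_ag

open FF Module

variable {K F : Type} [Field K] [Field F] [Algebra K F] [IsFF K F] [CharZero K] [IsAlgClosed K]

instance : Infinite (Place K F) := by
  obtain ⟨x, hx⟩ := exists_transcendental K F
  choose p hp using exists_place_of_transcendental hx
  refine Infinite.of_injective p fun a b h => ?_
  have h1 := hp a
  rw [h] at h1
  exact const_unique h1 (hp b)

theorem exists_notMem (D : Divisor K F) : ∃ P, D P = 0 := by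
  obtain ⟨P, hP⟩ := Infinite.exists_notMem_finset D.support
  exact ⟨P, Finsupp.notMem_support_iff.1 hP⟩

theorem h0_sub_single (D : Divisor K F) (P : Place K F) :
    h0 D ≤ h0 (D - Finsupp.single P 1) + 1 := by
  have := h0_add_single_le (D - Finsupp.single P 1) P
  rwa [sub_add_cancel] at this

theorem sub_pt_le (D : Divisor K F) (P : Place K F) : D - Finsupp.single P 1 ≤ D :=
  sub_le_self _ (Finsupp.single_nonneg.2 zero_le_one)

theorem mem_sec_sub {D : Divisor K F} {P : Place K F} {f : F} (hf : f ∈ sec D)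
    (hP : P.Ge (-D P + 1) f) : f ∈ sec (D - Finsupp.single P 1) := by
  intro Q
  rcases eq_or_ne Q P with rfl | hQ
  · rw [Finsupp.sub_apply, Finsupp.single_eq_same]
    exact hP.mono (by omega)
  · rw [Finsupp.sub_apply, Finsupp.single_eq_of_ne hQ, sub_zero]
    exact hf Q

theorem ge_of_mem_sub {D : Divisor K F} {P : Place K F} {f : F}
    (hf : f ∈ sec (D - Finsupp.single P 1)) : P.Ge (-D P + 1) f := by
  have := hf P
  rw [Finsupp.sub_apply, Finsupp.single_eq_same] at this
  exact this.mono (by omega)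

theorem h0_inf_sup (D E : Divisor K F) : h0 D + h0 E ≤ h0 (D ⊓ E) + h0 (D ⊔ E) := by
  have h1 := Submodule.finrank_sup_add_finrank_inf_eq (sec D) (sec E)
  have h2 : finrank K ↥(sec D ⊔ sec E) ≤ h0 (D ⊔ E) :=
    Submodule.finrank_mono (sup_le (sec_mono le_sup_left) (sec_mono le_sup_right))
  have h3 : finrank K ↥(sec D ⊓ sec E) ≤ h0 (D ⊓ E) := by
    refine Submodule.finrank_mono fun f hf P => ?_
    rw [Finsupp.inf_apply]
    rcases le_total (D P) (E P) with h | h
    · rw [inf_eq_left.2 h]; exact hf.1 P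
    · rw [inf_eq_right.2 h]; exact hf.2 P
  unfold h0 at *
  omega

theorem exists_drop (D : Divisor K F) (h : 0 < h0 D) :
    ∃ P, h0 (D - Finsupp.single P 1) < h0 D := by
  obtain ⟨f, hf, hf0⟩ := exists_ne_of_h0 h
  obtain ⟨P, hP⟩ := exists_notMem (div K f + D)
  refine ⟨P, Submodule.finrank_lt_finrank_of_lt (lt_of_le_of_ne (sec_mono (sub_pt_le D P))
    fun e => ?_)⟩
  rw [← e] at hf
  have := (ge_of_mem_sub hf).le hf0
  rw [Finsupp.add_apply, div_apply] at hP
  omega

theorem exists_h0_zero (n : ℕ) (D : Divisor K F) (h : h0 D ≤ n) :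
    ∃ G : Divisor K F, h0 G = 0 ∧ deg G = deg D - n := by
  induction n generalizing D with
  | zero => exact ⟨D, by omega, by simp⟩
  | succ n ih =>
    obtain ⟨P, hP⟩ : ∃ P, h0 (D - Finsupp.single P 1) ≤ n := by
      rcases Nat.eq_zero_or_pos (h0 D) with h1 | h1
      · obtain ⟨P⟩ : Nonempty (Place K F) := inferInstance
        have := h0_mono (sub_pt_le D P)
        exact ⟨P, by omega⟩
      · obtain ⟨P, hP⟩ := exists_drop D h1
        exact ⟨P, by omega⟩
    obtain ⟨G, h1, h2⟩ := ih _ hP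
    refine ⟨G, h1, ?_⟩
    rw [h2, deg_sub, deg_single]
    push_cast
    ring

/-- A canonical divisor on a curve of genus `g` without a pencil of degree two. -/
structure Can (g : ℕ) (W : Divisor K F) : Prop where
  rr : ∀ D : Divisor K F, (h0 D : ℤ) = deg D + 1 - g + h0 (W - D)
  nh : ∀ D : Divisor K F, deg D = 2 → h0 D ≤ 1

namespace Can

variable {g : ℕ} {W : Divisor K F} (hW : Can g W)
include hW

theorem h0_W : h0 W = g := by
  have := hW.rr 0
  rw [h0_zero, deg_zero, sub_zero] at this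
  omega

theorem deg_W : deg W = 2 * g - 2 := by
  have := hW.rr W
  rw [sub_self, h0_zero, hW.h0_W] at this
  omega

theorem nh' {D : Divisor K F} (h : deg D ≤ 2) : h0 D ≤ 1 := by
  obtain ⟨P⟩ : Nonempty (Place K F) := inferInstance
  refine (h0_mono (le_add_of_nonneg_right (b := Finsupp.single P (2 - deg D))
    (Finsupp.single_nonneg.2 (by omega)))).trans (hW.nh _ ?_)
  rw [deg_add, deg_single]; ring

theorem three_le : 3 ≤ g := by
  obtain ⟨P⟩ : Nonempty (Place K F) := inferInstance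
  have h1 := hW.rr (Finsupp.single P 2)
  have h2 := hW.nh (Finsupp.single P 2) (deg_single _ _)
  rw [deg_single] at h1
  have h3 := hW.deg_W
  have h4 := hW.h0_W
  have h5 := hW.nh W
  omega

theorem nonspecial {D : Divisor K F} (h : 2 * (g : ℤ) - 2 < deg D) :
    (h0 D : ℤ) = deg D + 1 - g := by
  have := hW.rr D
  rw [h0_eq_zero (D := W - D) (by rw [deg_sub, hW.deg_W]; omega)] at this
  omega

theorem h0_W_sub (P : Place K F) : h0 (W - Finsupp.single P 1) + 1 = g := by
  have h1 := hW.rr (Finsupp.single P 1)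
  have h2 := hW.nh' (D := Finsupp.single P 1) (by rw [deg_single]; omega)
  have h3 : h0 (0 : Divisor K F) ≤ h0 (Finsupp.single P 1) :=
    h0_mono (Finsupp.single_nonneg.2 zero_le_one)
  rw [h0_zero] at h3
  rw [deg_single] at h1
  omega

theorem h0_W_add (P : Place K F) : sec (W + Finsupp.single P 1) = sec W := by
  refine (Submodule.eq_of_le_of_finrank_le (sec_mono (le_add_pt W P)) ?_).symm
  have h1 := hW.nonspecial (D := W + Finsupp.single P 1) (by
    rw [deg_add, deg_single, hW.deg_W]; omega)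
  rw [deg_add, deg_single, hW.deg_W] at h1
  have h2 := hW.h0_W
  unfold h0 at h1 h2
  omega

theorem clifford (n : ℕ) (D : Divisor K F) (hn : deg D ≤ n) (h1 : 0 < deg D)
    (h2 : deg D < 2 * g - 2) : h0 D + h0 (W - D) ≤ g := by
  induction n generalizing D with
  | zero => omega
  | succ n ih =>
    by_contra hc
    have h3 := hW.rr D
    have h4 : 3 ≤ h0 D := by
      by_contra h4
      have := hW.nh' (D := D) (by omega)
      omega
    obtain ⟨e, he, he0⟩ := exists_ne_of_h0 (D := W - D) (by omega)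
    have hE := (mem_sec_iff he0).1 he
    set E := div K e + (W - D) with hEd
    have hdE : deg E = 2 * g - 2 - deg D := by
      rw [hEd, deg_add, deg_div, deg_sub, hW.deg_W]; ring
    obtain ⟨P, hP⟩ : ∃ P, E P ≠ 0 := by
      by_contra hcon
      push Not at hcon
      rw [Finsupp.ext hcon (g := 0), deg_zero] at hdE
      omega
    obtain ⟨Q, hQ⟩ := exists_notMem E
    have hPQ : P ≠ Q := by rintro rfl; exact hP hQ
    have h5 := h0_sub_single D P
    have h6 := h0_sub_single (D - Finsupp.single P 1) Q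
    obtain ⟨f, hf, hf0⟩ := exists_ne_of_h0
      (D := D - Finsupp.single P 1 - Finsupp.single Q 1) (by omega)
    have hf1 := (mem_sec_iff hf0).1 hf
    set D1 := div K f + D with hD1
    have hle : Finsupp.single P 1 + Finsupp.single Q 1 ≤ D1 := by
      rw [← sub_nonneg]; convert hf1 using 1; rw [hD1]; abel
    have hP1 : 1 ≤ D1 P := by
      have := hle P
      rwa [Finsupp.add_apply, Finsupp.single_eq_same, Finsupp.single_eq_of_ne hPQ, add_zero] at this
    have hQ1 : 1 ≤ D1 Q := by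
      have := hle Q
      rwa [Finsupp.add_apply, Finsupp.single_eq_same, Finsupp.single_eq_of_ne hPQ.symm,
        zero_add] at this
    have hD10 : 0 ≤ D1 := (add_nonneg (Finsupp.single_nonneg.2 zero_le_one)
      (Finsupp.single_nonneg.2 zero_le_one)).trans hle
    have hd1 : deg D1 = deg D := by rw [hD1, deg_add, deg_div, zero_add]
    have h7 := h0_inf_sup D1 E
    have h8 : D1 ⊔ E = (W - D1 ⊓ E) + div K (f * e) := by
      rw [FF.div_mul hf0 he0, eq_sub_of_add_eq' (inf_add_sup D1 E)]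
      have : D1 + E = W + (div K f + div K e) := by rw [hD1, hEd]; abel
      rw [this]; abel
    rw [h8, h0_add_div _ (mul_ne_zero hf0 he0)] at h7
    have h9 : h0 D1 = h0 D := by rw [hD1, add_comm, h0_add_div _ hf0]
    have h10 : h0 E = h0 (W - D) := by rw [hEd, add_comm, h0_add_div _ he0]
    have h11 : 0 < deg (D1 ⊓ E) := by
      have h12 := le_deg (le_inf hD10 hE) P
      have h13 : (0 : ℤ) ≤ E P := hE P
      rw [Finsupp.inf_apply] at h12
      omega
    have h12 : deg (D1 ⊓ E) < deg D1 := by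
      have h13 := le_deg (sub_nonneg.2 (inf_le_left : D1 ⊓ E ≤ D1)) Q
      rw [Finsupp.sub_apply, Finsupp.inf_apply, hQ, deg_sub] at h13
      omega
    have := ih (D1 ⊓ E) (by push_cast at hn; omega) h11 (by omega)
    omega

theorem cliff {D : Divisor K F} (h1 : 2 ≤ h0 D) (h2 : g < h0 D + h0 (W - D)) :
    2 * (g : ℤ) - 2 ≤ deg D := by
  by_contra hc
  have h3 : 0 < deg D := by
    by_contra h3
    have := hW.nh' (D := D) (by omega)
    omega
  have := hW.clifford (deg D).toNat D (by omega) h3 (by omega)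
  omega

theorem deg_ge {D : Divisor K F} {s : ℕ} (h : s + 1 ≤ h0 D) (h1 : 1 ≤ s) (h2 : s + 2 ≤ g) :
    2 * (s : ℤ) + 1 ≤ deg D := by
  by_contra hc
  have h3 := hW.rr D
  have := hW.cliff (D := D) (by omega) (by omega)
  omega

theorem exists_G : ∃ G : Divisor K F, h0 G = 0 ∧ deg G = 2 := by
  obtain ⟨P⟩ : Nonempty (Place K F) := inferInstance
  have h3 := hW.three_le
  have h1 := hW.nonspecial (D := Finsupp.single P (2 * (g : ℤ))) (by rw [deg_single]; omega)
  rw [deg_single] at h1
  obtain ⟨G, h4, h5⟩ := exists_h0_zero (2 * g - 2) (Finsupp.single P (2 * (g : ℤ))) (by omega)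
  rw [deg_single] at h5
  exact ⟨G, h4, by omega⟩

end Can

theorem exists_can (nh : ∀ D : Divisor K F, deg D = 2 → h0 D ≤ 1) :
    ∃ W : Divisor K F, Can (genus K F) W := by
  obtain ⟨W, hW⟩ := riemann_roch K F
  exact ⟨W, hW, nh⟩

end Pool.Agent.MP_79c67d_ag

end MrgPart1

-- marker of a merged file
example : 731051 + 416676 = 731051 + 416676 := rfl
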