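import Mathlib.Algebra.BigOperators.Field
import Mathlib.Algebra.Module.Torsion.Prod
import Mathlib.Algebra.Module.StablyFree.Basic
import Mathlib.Algebra.Order.Star.Real
import Mathlib.LinearAlgebra.PiTensorProduct.Generators
import Pool.Agent.MP_79c67d_ag.Cliff

-- ======== part 0: formerly Pool.Agent.MP_79c67d_ag.Lat
section MrgPart0

/-! Lattices at a point, determinants, degrees of bundles in exact sequences. -/

set_option linter.unusedSectionVars false

namespace Pool.Agent.MP_79c67d_ag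

open FF Module Matrix

variable {K F : Type} [Field K] [Field F] [Algebra K F]

namespace Place

variable {P : Place K F} {n : ℕ} {ι κ : Type} [Fintype ι] [Fintype κ] {u : ι → Fin n → F}

theorem lat_self (u : ι → Fin n → F) (i : ι) : u i ∈ P.lat u := by
  classical
  refine ⟨Pi.single i 1, fun j => ?_, ?_⟩
  · rcases eq_or_ne j i with rfl | h
    · rw [Pi.single_eq_same]; exact P.ge_one
    · rw [Pi.single_eq_of_ne h]; exact P.ge_zero _
  · rw [Finset.sum_eq_single i (fun j _ h => by rw [Pi.single_eq_of_ne h, zero_smul]) (by simp)]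
    simp

theorem lat_zero : (0 : Fin n → F) ∈ P.lat u := ⟨0, fun _ => P.ge_zero _, by simp⟩

theorem lat_add {v w : Fin n → F} (hv : v ∈ P.lat u) (hw : w ∈ P.lat u) : v + w ∈ P.lat u := by
  obtain ⟨c, hc, rfl⟩ := hv
  obtain ⟨d, hd, rfl⟩ := hw
  exact ⟨c + d, fun i => (hc i).add (hd i), by simp [add_smul, Finset.sum_add_distrib]⟩

theorem lat_smul {v : Fin n → F} {a : F} (ha : P.Ge 0 a) (hv : v ∈ P.lat u) :
    a • v ∈ P.lat u := by
  obtain ⟨c, hc, rfl⟩ := hv
  exact ⟨fun i => a * c i, fun i => ha.mul0 (hc i), by simp [mul_smul, Finset.smul_sum]⟩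

theorem lat_sub {v w : Fin n → F} (hv : v ∈ P.lat u) (hw : w ∈ P.lat u) : v - w ∈ P.lat u := by
  have := lat_add hv (lat_smul P.ge_one.neg hw)
  rwa [neg_one_smul, ← sub_eq_add_neg] at this

theorem lat_ksmul {v : Fin n → F} (a : K) (hv : v ∈ P.lat u) : a • v ∈ P.lat u := by
  rw [← algebraMap_smul F]; exact lat_smul (P.ge_const a) hv

theorem lat_sum {s : Finset κ} {f : κ → Fin n → F} (h : ∀ i ∈ s, f i ∈ P.lat u) :
    ∑ i ∈ s, f i ∈ P.lat u :=
  Finset.sum_induction f (· ∈ P.lat u) (fun _ _ => lat_add) lat_zero h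

theorem lat_subset {w : κ → Fin n → F} (h : ∀ j, w j ∈ P.lat u) : P.lat w ⊆ P.lat u := by
  rintro _ ⟨c, hc, rfl⟩
  exact lat_sum fun j _ => lat_smul (hc j) (h j)

theorem lat_span {v : Fin n → F} (hv : v ∈ Submodule.span K (Set.range u)) : v ∈ P.lat u := by
  obtain ⟨c, rfl⟩ := (Submodule.mem_span_range_iff_exists_fun K).1 hv
  exact lat_sum fun j _ => lat_ksmul _ (lat_self u j)

theorem lat_map {m : ℕ} (φ : (Fin n → F) →ₗ[F] (Fin m → F)) :
    φ '' P.lat u = P.lat fun i => φ (u i) := by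
  ext v
  constructor
  · rintro ⟨_, ⟨c, hc, rfl⟩, rfl⟩
    exact ⟨c, hc, by simp [map_sum]⟩
  · rintro ⟨c, hc, rfl⟩
    exact ⟨_, ⟨c, hc, rfl⟩, by simp [map_sum]⟩

theorem ge_det {M : Matrix (Fin n) (Fin n) F} (h : ∀ i j, P.Ge 0 (M i j)) : P.Ge 0 M.det := by
  rw [Matrix.det_apply']
  exact ge_sum fun σ _ => (P.ge_intCast _).mul0 (ge_prod fun i _ => h _ _)

theorem ge_det_of_lat {u w : Matrix (Fin n) (Fin n) F} (h : ∀ j, w j ∈ P.lat u) :
    P.Ge (P.ord u.det) w.det := by
  choose c hc e using h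
  have : w = Matrix.of c * u := by
    ext i j
    rw [e i, Matrix.mul_apply]
    simp
  rw [this, det_mul]
  exact (ge_det (M := Matrix.of c) hc).mul0 (P.ge_ord _)

theorem mem_lat_of_det {u : Matrix (Fin n) (Fin n) F} (hu : u.det ≠ 0) {v : Fin n → F}
    (h : ∀ j, P.Ge (P.ord u.det) (u.updateRow j v).det) : v ∈ P.lat u := by
  refine ⟨fun j => (u.updateRow j v).det * u.det⁻¹, fun j => ?_, ?_⟩
  · have := (h j).mul (P.ge_ord u.det⁻¹)
    rwa [P.ord_inv, add_neg_cancel] at this
  · have := Matrix.mulVec_cramer uᵀ v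
    rw [det_transpose] at this
    ext i
    have h1 := congrFun this i
    simp only [mulVec, dotProduct, cramer_transpose_apply, transpose_apply, Pi.smul_apply,
      smul_eq_mul] at h1
    rw [Finset.sum_apply, ← inv_mul_cancel_left₀ hu (v i), ← h1, Finset.mul_sum]
    exact Finset.sum_congr rfl fun j _ => by simp only [Pi.smul_apply, smul_eq_mul]; ring

theorem lat_subset_of_ord {u w : Matrix (Fin n) (Fin n) F} (hw : w.det ≠ 0)
    (h : ∀ j, w j ∈ P.lat u) (ho : P.ord w.det ≤ P.ord u.det) : P.lat u ⊆ P.lat w := by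
  intro v hv
  refine mem_lat_of_det hw fun j => (ge_det_of_lat (u := u) fun i => ?_).mono ho
  rcases eq_or_ne i j with rfl | hi
  · rwa [updateRow_self]
  · rw [updateRow_ne hi]; exact h i

/-- Functions vanishing to order at least `n`. -/
def geSub (P : Place K F) (n : ℤ) : Submodule K F where
  carrier := {f | P.Ge n f}
  add_mem' := fun ha hb => Place.Ge.add ha hb
  zero_mem' := P.ge_zero _
  smul_mem' := fun c _ ha => Place.Ge.smul c ha

end Place

section linear

theorem exists_quot {X : Type} [AddCommGroup X] [Module F X] [FiniteDimensional F X]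
    (Y : Submodule F X) {s : ℕ} (h : finrank F Y + s = finrank F X) :
    ∃ π : X →ₗ[F] (Fin s → F), Function.Surjective π ∧ LinearMap.ker π = Y := by
  have h1 := Y.finrank_quotient_add_finrank
  let e : (X ⧸ Y) ≃ₗ[F] (Fin s → F) := LinearEquiv.ofFinrankEq _ _ (by
    rw [finrank_fin_fun]; omega)
  exact ⟨e.toLinearMap ∘ₗ Y.mkQ, e.surjective.comp Y.mkQ_surjective, by
    rw [LinearEquiv.ker_comp, Submodule.ker_mkQ]⟩

theorem exists_incl {X : Type} [AddCommGroup X] [Module F X] [FiniteDimensional F X]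
    (Y : Submodule F X) :
    ∃ φ : (Fin (finrank F Y) → F) →ₗ[F] X, Function.Injective φ ∧ LinearMap.range φ = Y := by
  let e : (Fin (finrank F Y) → F) ≃ₗ[F] Y := LinearEquiv.ofFinrankEq _ _ (by
    rw [finrank_fin_fun])
  exact ⟨Y.subtype ∘ₗ e.toLinearMap, Y.injective_subtype.comp e.injective, by
    rw [LinearMap.range_comp, LinearEquiv.range, Submodule.map_top, Submodule.range_subtype]⟩

variable {m n s : ℕ}

/-- Short exact sequences of coordinate spaces. -/
structure Ex (φ : (Fin m → F) →ₗ[F] (Fin n → F)) (π : (Fin n → F) →ₗ[F] (Fin s → F)) :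
    Prop where
  inj : Function.Injective φ
  surj : Function.Surjective π
  ex : LinearMap.range φ = LinearMap.ker π

variable {φ : (Fin m → F) →ₗ[F] (Fin n → F)} {π : (Fin n → F) →ₗ[F] (Fin s → F)}

theorem Ex.add (h : Ex φ π) : m + s = n := by
  have h1 := LinearMap.finrank_range_add_finrank_ker π
  rw [← h.ex, LinearMap.finrank_range_of_inj h.inj, LinearMap.range_eq_top.2 h.surj,
    finrank_top, finrank_fin_fun, finrank_fin_fun, finrank_fin_fun] at h1
  omega

theorem Ex.comp (h : Ex φ π) (v : Fin m → F) : π (φ v) = 0 :=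
  LinearMap.mem_ker.1 (h.ex ▸ LinearMap.mem_range_self φ v)

theorem Ex.lift (h : Ex φ π) {v : Fin n → F} (hv : π v = 0) : ∃ u, φ u = v := by
  have : v ∈ LinearMap.range φ := h.ex ▸ hv
  exact this

theorem exists_ex (hφ : Function.Injective φ) (h : m + s = n) :
    ∃ π : (Fin n → F) →ₗ[F] (Fin s → F), Ex φ π := by
  obtain ⟨π, h1, h2⟩ := exists_quot (LinearMap.range φ) (s := s) (by
    rw [LinearMap.finrank_range_of_inj hφ, finrank_fin_fun, finrank_fin_fun, h])
  exact ⟨π, hφ, h1, h2.symm⟩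

theorem Ex.det_block (h : Ex φ π) (e : Fin m ⊕ Fin s ≃ Fin n) :
    ∃ c : F, c ≠ 0 ∧ ∀ (w' : Matrix (Fin m) (Fin m) F) (w : Fin s → Fin n → F),
      (Matrix.of fun i => Sum.elim (fun k => φ (w' k)) w (e.symm i)).det =
        c * w'.det * (Matrix.of fun j => π (w j)).det := by
  obtain ⟨ρ, hρ⟩ := φ.exists_leftInverse_of_injective (LinearMap.ker_eq_bot.2 h.inj)
  have hρ' : ∀ v, ρ (φ v) = v := fun v => LinearMap.congr_fun hρ v
  let Θ : (Fin n → F) →ₗ[F] (Fin n → F) :=
    { toFun := fun v i => Sum.elim (ρ v) (π v) (e.symm i)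
      map_add' := fun v w => by
        ext i
        rcases hi : e.symm i with k | k <;> simp [hi]
      map_smul' := fun c v => by
        ext i
        rcases hi : e.symm i with k | k <;> simp [hi] }
  have hΘ : LinearMap.det Θ ≠ 0 := by
    rw [Ne, LinearMap.det_eq_zero_iff_ker_ne_bot, not_not, LinearMap.ker_eq_bot']
    intro v hv
    have h1 : π v = 0 := funext fun k => by simpa [Θ] using congrFun hv (e (Sum.inr k))
    have h2 : ρ v = 0 := funext fun k => by simpa [Θ] using congrFun hv (e (Sum.inl k))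
    obtain ⟨u, rfl⟩ := h.lift h1
    rw [hρ'] at h2
    rw [h2, map_zero]
  refine ⟨(LinearMap.det Θ)⁻¹, inv_ne_zero hΘ, fun w' w => ?_⟩
  have h1 := (Pi.basisFun F (Fin n)).det_comp Θ
    fun i => Sum.elim (fun k => φ (w' k)) w (e.symm i)
  rw [Pi.basisFun_det_apply, Pi.basisFun_det_apply] at h1
  rw [mul_assoc, eq_inv_mul_iff_mul_eq₀ hΘ, ← h1, ← det_submatrix_equiv_self e,
    ← det_fromBlocks_zero₁₂ w' (Matrix.of fun j => ρ (w j))]
  congr 1
  ext (i | i) (j | j) <;> simp [Θ, hρ', h.comp]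

theorem exists_det_ne {ι : Type} {u : ι → Fin n → F} (hu : Submodule.span F (Set.range u) = ⊤) :
    ∃ I : Fin n → ι, (Matrix.of fun j => u (I j)).det ≠ 0 := by
  by_contra hn
  push Not at hn
  have : (Matrix.detRowAlternating (n := Fin n) (R := F)).toMultilinearMap = 0 :=
    MultilinearMap.ext_of_span_eq_top (g := fun _ => u) (fun _ => hu) fun I => by exact hn I
  have h1 : (1 : Matrix (Fin n) (Fin n) F).det = 0 :=
    MultilinearMap.congr_fun this (1 : Matrix (Fin n) (Fin n) F)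
  simp at h1

end linear

namespace Bundle

variable {m n s : ℕ}

/-- The determinant divisor. -/
noncomputable def dv (E : Bundle K F n) : Divisor K F :=
  Finsupp.ofSupportFinite (fun P => - P.ord (E.g P).det)
    (E.fin.subset fun _ hP h => hP (by simp [h.2]))

theorem dv_apply (E : Bundle K F n) (P : Place K F) : E.dv P = - P.ord (E.g P).det := rfl

theorem deg_dv (E : Bundle K F n) : MP_79c67d_ag.deg E.dv = E.deg := deg_eq_finsum _

theorem row_mem (E : Bundle K F n) (P : Place K F) (i : Fin n) : E.g P i ∈ E.stalk P :=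
  Place.lat_self _ i

theorem ge_det (E : Bundle K F n) {P : Place K F} {w : Matrix (Fin n) (Fin n) F}
    (h : ∀ j, w j ∈ E.stalk P) : P.Ge (-E.dv P) w.det := by
  rw [dv_apply, neg_neg]; exact Place.ge_det_of_lat h

variable {φ : (Fin m → F) →ₗ[F] (Fin n → F)} {π : (Fin n → F) →ₗ[F] (Fin s → F)}

theorem exact_local (h : Ex φ π) (E' : Bundle K F m) (E : Bundle K F n) (Q : Bundle K F s) :
    ∃ c : F, c ≠ 0 ∧ ∀ P, Set.MapsTo φ (E'.stalk P) (E.stalk P) →
      Set.SurjOn π (E.stalk P) (Q.stalk P) →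
      E'.dv P + Q.dv P ≤ E.dv P + P.ord c ∧
      (E.dv P + P.ord c ≤ E'.dv P + Q.dv P → ∀ v ∈ E.stalk P, π v = 0 → v ∈ φ '' E'.stalk P) ∧
      (Set.MapsTo π (E.stalk P) (Q.stalk P) →
        (∀ v ∈ E.stalk P, π v = 0 → v ∈ φ '' E'.stalk P) →
          E.dv P + P.ord c ≤ E'.dv P + Q.dv P) := by
  let e : Fin m ⊕ Fin s ≃ Fin n := finSumFinEquiv.trans (finCongr h.add)
  obtain ⟨c, hc, hd⟩ := h.det_block e
  refine ⟨c, hc, fun P h1 h2 => ?_⟩
  choose w hw hw' using fun j => h2 (Q.row_mem P j)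
  have h3 := hd (E'.g P) w
  have h4 : (Matrix.of fun j => π (w j)) = Q.g P := by ext j k; simp [hw']
  rw [h4] at h3
  set M := Matrix.of fun i => Sum.elim (fun k => φ (E'.g P k)) w (e.symm i) with hM
  have hM0 : M.det ≠ 0 := h3 ▸ mul_ne_zero (mul_ne_zero hc (E'.det_ne P)) (Q.det_ne P)
  have hMo : P.ord M.det = P.ord c - E'.dv P - Q.dv P := by
    rw [h3, P.ord_mul (mul_ne_zero hc (E'.det_ne P)) (Q.det_ne P), P.ord_mul hc (E'.det_ne P),
      dv_apply, dv_apply]
    ring
  have hMr : ∀ i, M i ∈ E.stalk P := fun i => by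
    change Sum.elim (fun k => φ (E'.g P k)) w (e.symm i) ∈ _
    rcases e.symm i with k | k
    · exact h1 (E'.row_mem P k)
    · exact hw k
  have hMl : ∀ k, M (e (Sum.inl k)) = φ (E'.g P k) := fun k => by
    change Sum.elim (fun k => φ (E'.g P k)) w (e.symm _) = _
    simp
  have hMr' : ∀ k, M (e (Sum.inr k)) = w k := fun k => by
    change Sum.elim (fun k => φ (E'.g P k)) w (e.symm _) = _
    simp
  have hl : ∀ k, φ (E'.g P k) ∈ P.lat M := fun k => hMl k ▸ Place.lat_self M _
  have hr : ∀ k, w k ∈ P.lat M := fun k => hMr' k ▸ Place.lat_self M _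
  have hE := E.dv_apply P
  refine ⟨?_, fun h5 v hv hv0 => ?_, fun h5 h6 => ?_⟩
  · have := (E.ge_det hMr).le hM0
    omega
  · obtain ⟨d, hd1, rfl⟩ := Place.lat_subset_of_ord hM0 hMr (by omega) hv
    rw [← e.sum_comp, Fintype.sum_sum_type] at hv0 ⊢
    simp only [hMl, hMr', map_add, map_sum,
      map_smul, h.comp, smul_zero, Finset.sum_const_zero, zero_add, hw'] at hv0 ⊢
    have h7 : (fun k => d (e (Sum.inr k))) = 0 :=
      Matrix.eq_zero_of_vecMul_eq_zero (Q.det_ne P) (by rw [vecMul_eq_sum]; exact hv0)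
    refine ⟨_, ⟨fun k => d (e (Sum.inl k)), fun k => hd1 _, rfl⟩, ?_⟩
    simp [map_sum, congrFun h7]
  · have h7 : ∀ i, E.g P i ∈ P.lat M := fun i => by
      obtain ⟨d, hd1, hd2⟩ := h5 (E.row_mem P i)
      have h8 : ∑ j, d j • w j ∈ E.stalk P :=
        Place.lat_sum fun j _ => Place.lat_smul (hd1 j) (hw j)
      obtain ⟨v', hv', e1⟩ := h6 _ (Place.lat_sub (E.row_mem P i) h8) (by
        simp [map_sum, hw', hd2])
      rw [← sub_add_cancel (E.g P i) (∑ j, d j • w j), ← e1]
      refine Place.lat_add (Place.lat_subset hl ?_)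
        (Place.lat_sum fun j _ => Place.lat_smul (hd1 j) (hr j))
      rw [← Place.lat_map]
      exact ⟨v', hv', rfl⟩
    have := (Place.ge_det_of_lat h7).le (E.det_ne P)
    omega

variable [IsFF K F] [CharZero K] [IsAlgClosed K] {E' : Bundle K F m} {E : Bundle K F n}
  {Q : Bundle K F s}

theorem deg_add_le (h : Ex φ π) (h1 : ∀ P, Set.MapsTo φ (E'.stalk P) (E.stalk P))
    (h2 : ∀ P, Set.SurjOn π (E.stalk P) (Q.stalk P)) : E'.deg + Q.deg ≤ E.deg := by
  obtain ⟨c, -, hc⟩ := exact_local h E' E Q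
  have := deg_mono (D := E'.dv + Q.dv) (E := E.dv + div K c) fun P => (hc P (h1 P) (h2 P)).1
  rwa [deg_add, deg_add, deg_div, add_zero, deg_dv, deg_dv, deg_dv] at this

theorem deg_add_eq (h : Ex φ π) (h1 : ∀ P, Set.MapsTo φ (E'.stalk P) (E.stalk P))
    (h2 : ∀ P, π '' E.stalk P = Q.stalk P)
    (h3 : ∀ P, ∀ v ∈ E.stalk P, π v = 0 → v ∈ φ '' E'.stalk P) : E'.deg + Q.deg = E.deg := by
  refine le_antisymm (deg_add_le h h1 fun P => (h2 P).ge) ?_
  obtain ⟨c, -, hc⟩ := exact_local h E' E Q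
  have := deg_mono (D := E.dv + div K c) (E := E'.dv + Q.dv) fun P =>
    (hc P (h1 P) (h2 P).ge).2.2 (Set.mapsTo_iff_image_subset.2 (h2 P).le) (h3 P)
  rwa [deg_add, deg_add, deg_div, add_zero, deg_dv, deg_dv, deg_dv] at this

theorem sat_of_deg (h : Ex φ π) (h1 : ∀ P, Set.MapsTo φ (E'.stalk P) (E.stalk P))
    (h2 : ∀ P, Set.SurjOn π (E.stalk P) (Q.stalk P)) (h3 : E.deg ≤ E'.deg + Q.deg) :
    ∀ P, ∀ v ∈ E.stalk P, π v = 0 → v ∈ φ '' E'.stalk P := by
  obtain ⟨c, -, hc⟩ := exact_local h E' E Q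
  have h4 : E'.dv + Q.dv ≤ E.dv + div K c := fun P => (hc P (h1 P) (h2 P)).1
  have h5 := deg_nonneg (sub_nonneg.2 h4)
  have h6 := eq_zero_of_deg_eq_zero (sub_nonneg.2 h4) (by
    rw [deg_sub, deg_add, deg_add, deg_div, add_zero, deg_dv, deg_dv, deg_dv] at h5 ⊢
    omega)
  exact fun P => (hc P (h1 P) (h2 P)).2.1 ((sub_eq_zero.1 h6).le P)

end Bundle

end Pool.Agent.MP_79c67d_ag

end MrgPart0

-- ======== part 1: formerly Pool.Agent.MP_79c67d_ag.Gen
section MrgPart1

/-! Bundles generated by finitely many sections. -/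

set_option linter.unusedSectionVars false

namespace Pool.Agent.MP_79c67d_ag

open FF Module Matrix

variable {K F : Type} [Field K] [Field F] [Algebra K F] [IsFF K F] [CharZero K] [IsAlgClosed K]

/-- The functions `a i` generate `O(D)`. -/
def Bpf {ι : Type} (D : Divisor K F) (a : ι → F) : Prop :=
  (∀ i, a i ∈ sec D) ∧ ∀ P : Place K F, ∃ i, a i ≠ 0 ∧ P.ord (a i) = -D P

theorem Bpf.ge {ι : Type} {D : Divisor K F} {a : ι → F} (h : Bpf D a) {P : Place K F} {n : ℤ}
    {f : F} (hf : ∀ i, P.Ge n (f * a i)) : P.Ge (n + D P) f := by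
  obtain ⟨i, h1, h2⟩ := h.2 P
  refine Place.Ge.of_mul h1 ?_
  rw [h2, add_neg_cancel_right]
  exact hf i

theorem exists_base {ι : Type} [Fintype ι] (f : ι → F) (h : ∃ i, f i ≠ 0) :
    ∃ D : Divisor K F, Bpf D f := by
  classical
  have hne : (Finset.univ.filter fun i => f i ≠ 0).Nonempty := by
    obtain ⟨i, hi⟩ := h
    exact ⟨i, by simpa using hi⟩
  choose I hI hmin using fun P : Place K F =>
    Finset.exists_min_image _ (fun i => P.ord (f i)) hne
  refine ⟨Finsupp.ofSupportFinite (fun P => - P.ord (f (I P)))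
    ((Set.finite_iUnion fun i => finite_ord (f i)).subset fun P hP =>
      Set.mem_iUnion.2 ⟨I P, fun h0 => hP (by simp [h0])⟩), fun i P => ?_, fun P =>
    ⟨I P, by simpa using hI P, (neg_neg _).symm⟩⟩
  change P.Ge (- - P.ord (f (I P))) (f i)
  rw [neg_neg, P.ge_iff']
  by_cases hi : f i = 0
  · exact Or.inl hi
  · exact Or.inr (hmin P i (by simpa using hi))

theorem exists_basis (Y : Submodule K F) [FiniteDimensional K Y] {g : ℕ} (h : finrank K Y = g) :
    ∃ a : Fin g → F, LinearIndependent K a ∧ Submodule.span K (Set.range a) = Y := by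
  let b := Module.finBasisOfFinrankEq K Y h
  refine ⟨Y.subtype ∘ b, b.linearIndependent.map' _ Y.ker_subtype, ?_⟩
  rw [Set.range_comp, ← Submodule.map_span, b.span_eq, Submodule.map_top, Submodule.range_subtype]

theorem exists_base' (Y : Submodule K F) [FiniteDimensional K Y] (h : 0 < finrank K Y) :
    ∃ D : Divisor K F, Y ≤ sec D ∧ ∀ P : Place K F, ∃ f ∈ Y, f ≠ 0 ∧ P.ord f = -D P := by
  obtain ⟨a, h1, h2⟩ := exists_basis Y rfl
  obtain ⟨D, h3, h4⟩ := exists_base (K := K) a ⟨⟨0, h⟩, h1.ne_zero _⟩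
  refine ⟨D, h2 ▸ Submodule.span_le.2 (Set.range_subset_iff.2 h3), fun P => ?_⟩
  obtain ⟨i, h5⟩ := h4 P
  exact ⟨a i, h2 ▸ Submodule.subset_span ⟨i, rfl⟩, h5⟩

theorem exists_bpf {D : Divisor K F} {g : ℕ} (h : h0 D = g)
    (hP : ∀ P, h0 (D - Finsupp.single P 1) < h0 D) :
    ∃ a : Fin g → F, LinearIndependent K a ∧ Submodule.span K (Set.range a) = sec D ∧ Bpf D a := by
  obtain ⟨a, h1, h2⟩ := exists_basis (sec D) h
  have h3 : ∀ i, a i ∈ sec D := fun i => h2 ▸ Submodule.subset_span ⟨i, rfl⟩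
  refine ⟨a, h1, h2, h3, fun P => ?_⟩
  by_contra hn
  push Not at hn
  refine absurd (Submodule.finrank_mono (s := sec D) (t := sec (D - Finsupp.single P 1)) ?_)
    (not_le.2 (hP P))
  rw [← h2, Submodule.span_le, Set.range_subset_iff]
  intro i
  refine mem_sec_sub (h3 i) (P.ge_of_le ?_)
  have h4 := hn i (h1.ne_zero i)
  have h5 := (h3 i P).le (h1.ne_zero i)
  omega

variable {n : ℕ} {ι : Type} [Fintype ι]

theorem exists_frame {u : ι → Fin n → F} (hu : Submodule.span F (Set.range u) = ⊤)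
    (P : Place K F) : ∃ I : Fin n → ι, (Matrix.of fun j => u (I j)).det ≠ 0 ∧
      ∀ i, u i ∈ P.lat fun j => u (I j) := by
  classical
  obtain ⟨D, h1, h2⟩ := exists_base (K := K)
    (fun I : Fin n → ι => (Matrix.of fun j => u (I j)).det) (exists_det_ne hu)
  obtain ⟨I, h3, h4⟩ := h2 P
  refine ⟨I, h3, fun i => Place.mem_lat_of_det (u := Matrix.of fun j => u (I j)) h3 fun j => ?_⟩
  have h5 : (Matrix.of fun j => u (I j)).updateRow j (u i) =
      Matrix.of fun k => u (Function.update I j i k) := by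
    ext k l
    rcases eq_or_ne k j with rfl | hk
    · simp
    · simp [hk]
  rw [h4, h5]
  exact h1 _ P

variable (K) in
theorem exists_bundle {u : ι → Fin n → F} (hu : Submodule.span F (Set.range u) = ⊤) :
    ∃ E : Bundle K F n, ∀ P, E.stalk P = P.lat u := by
  classical
  choose I h1 h2 using exists_frame (K := K) hu
  refine ⟨⟨fun P => Matrix.of fun j => u (I P j), h1, ?_⟩, fun P => ?_⟩
  · refine ((Set.finite_iUnion fun p : ι × Fin n => finite_ord (u p.1 p.2)).union
      (Set.finite_iUnion fun J : Fin n → ι =>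
        finite_ord (Matrix.of fun j => u (J j)).det)).subset fun P hP => ?_
    by_contra hn
    simp only [Set.mem_union, Set.mem_iUnion, Function.mem_support, not_or, not_exists,
      not_not] at hn
    exact hP ⟨fun i j => P.ge_of_le (hn.1 (I P i, j)).ge, hn.2 _⟩
  · exact (Place.lat_subset fun j => Place.lat_self u _).antisymm (Place.lat_subset (h2 P))

theorem exists_line (D : Divisor K F) : ∃ L : Bundle K F 1, L.deg = deg D ∧
    ∀ P v, v ∈ L.stalk P ↔ P.Ge (-D P) (v 0) := by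
  choose t h1 h2 using fun P : Place K F => P.exists_ord (-D P)
  refine ⟨⟨fun P => Matrix.of fun _ _ => t P, fun P => by simp [h1], ?_⟩, ?_, fun P v => ?_⟩
  · refine D.support.finite_toSet.subset fun P hP => ?_
    by_contra hn
    have : D P = 0 := by simpa using hn
    exact hP ⟨fun _ _ => P.ge_of_le (by simp [h2, this]), by simp [h2, this]⟩
  · simp [Bundle.deg, h2, deg_eq_finsum]
  · constructor
    · rintro ⟨c, hc, rfl⟩
      rw [← h2]
      simpa using (hc 0).mul0 (P.ge_ord (t P))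
    · intro h
      refine ⟨fun _ => v 0 * (t P)⁻¹, fun _ => ?_, ?_⟩
      · have := h.mul (P.ge_ord (t P)⁻¹)
        rwa [P.ord_inv, h2, add_neg_cancel] at this
      · ext i
        rw [Subsingleton.elim i 0]
        simp [h1]

variable (K F n) in
theorem exists_triv : ∃ O : Bundle K F n, O.deg = 0 ∧
    ∀ P v, v ∈ O.stalk P ↔ ∀ i, P.Ge 0 (v i) := by
  have h1 : ∀ (P : Place K F) (i j : Fin n), P.Ge 0 ((1 : Matrix (Fin n) (Fin n) F) i j) := by
    intro P i j
    rw [Matrix.one_apply]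
    split_ifs
    · exact P.ge_one
    · exact P.ge_zero _
  have h2 : ∀ c : Fin n → F, ∑ i, c i • (1 : Matrix (Fin n) (Fin n) F) i = c := fun c => by
    rw [← vecMul_eq_sum, vecMul_one]
  refine ⟨⟨fun _ => 1, fun _ => by simp, by simp [h1]⟩, by simp [Bundle.deg], fun P v => ?_⟩
  constructor
  · rintro ⟨c, hc, rfl⟩
    rw [h2]; exact hc
  · exact fun h => ⟨v, h, (h2 v).symm⟩

theorem Bundle.deg_rank_zero (E : Bundle K F 0) : E.deg = 0 := by simp [Bundle.deg]

/-- The map `c ↦ c 0 • t`. -/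
def lineMap (t : Fin n → F) : (Fin 1 → F) →ₗ[F] (Fin n → F) := (LinearMap.proj 0).smulRight t

@[simp] theorem lineMap_apply (t : Fin n → F) (c : Fin 1 → F) : lineMap t c = c 0 • t := rfl

theorem lineMap_inj {t : Fin n → F} (ht : t ≠ 0) : Function.Injective (lineMap t) := by
  rw [injective_iff_map_eq_zero]
  intro c hc
  ext i
  rw [Subsingleton.elim i 0]
  exact (smul_eq_zero.1 hc).resolve_right ht

theorem span_map {k : ℕ} {u : ι → Fin n → F} (hu : Submodule.span F (Set.range u) = ⊤)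
    {π : (Fin n → F) →ₗ[F] (Fin k → F)} (hπ : Function.Surjective π) :
    Submodule.span F (Set.range fun i => π (u i)) = ⊤ := by
  have : (Set.range fun i => π (u i)) = π '' Set.range u := by rw [← Set.range_comp]; rfl
  rw [this, ← Submodule.map_span, hu, Submodule.map_top, LinearMap.range_eq_top.2 hπ]

variable (K) in
/-- The span of the maximal minors. -/
def minors (u : ι → Fin n → F) : Submodule K F :=
  Submodule.span K (Set.range fun I : Fin n → ι => (Matrix.of fun j => u (I j)).det)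

instance (u : ι → Fin n → F) : FiniteDimensional K (minors K u) :=
  FiniteDimensional.span_of_finite K (Set.finite_range _)

variable (K) in
/-- No trivial quotient. -/
def NoTriv (u : ι → Fin n → F) : Prop :=
  ∀ l : (Fin n → F) →ₗ[F] F, (∀ i, ∃ c : K, l (u i) = algebraMap K F c) → l = 0

theorem minors_dim (n : ℕ) (u : ι → Fin n → F) (hu : Submodule.span F (Set.range u) = ⊤)
    (hn : NoTriv K u) : n + 1 ≤ finrank K (minors K u) := by
  classical
  induction n with
  | zero =>
    refine Order.one_le_iff_pos.2 (finrank_pos_iff_exists_ne_zero.2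
      ⟨⟨_, Submodule.subset_span ⟨Fin.elim0, rfl⟩⟩, fun h => ?_⟩)
    simpa using congrArg Subtype.val h
  | succ k ih =>
    obtain ⟨P⟩ : Nonempty (Place K F) := inferInstance
    obtain ⟨I, hI, h1⟩ := exists_frame hu P
    choose c hc e using h1
    choose a ha using fun i j => P.residue (hc i j)
    set U : Matrix (Fin (k + 1)) (Fin (k + 1)) F := Matrix.of fun j => u (I j) with hU
    obtain ⟨i, hi⟩ : ∃ i, u i - ∑ j, a i j • u (I j) ≠ 0 := by
      by_contra hcon
      push Not at hcon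
      let l : (Fin (k + 1) → F) →ₗ[F] F := LinearMap.proj 0 ∘ₗ U⁻¹.vecMulLinear
      have hl : ∀ d : Fin (k + 1) → F, l (∑ j, d j • u (I j)) = d 0 := fun d => by
        change ((∑ j, d j • U j) ᵥ* U⁻¹) 0 = d 0
        rw [← vecMul_eq_sum, vecMul_vecMul, mul_nonsing_inv _ (Ne.isUnit hI), vecMul_one]
      have h2 := hn l fun i => ⟨a i 0, by
        rw [sub_eq_zero.1 (hcon i), ← hl fun j => algebraMap K F (a i j)]
        simp only [algebraMap_smul]⟩
      have h3 := hl fun _ => 1
      simp [h2] at h3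
    set t := u i - ∑ j, a i j • u (I j) with ht
    obtain ⟨π, hπ⟩ := exists_ex (s := k) (lineMap_inj hi) (add_comm 1 k)
    let ε : Fin 1 ⊕ Fin k ≃ Fin (k + 1) := finSumFinEquiv.trans (finCongr hπ.add)
    obtain ⟨b, hb, hd⟩ := hπ.det_block ε
    have h2 := ih (fun i => π (u i)) (span_map hu hπ.surj) fun l hl => by
      have := hn (l ∘ₗ π) hl
      refine LinearMap.ext fun v => ?_
      obtain ⟨w, rfl⟩ := hπ.surj v
      exact LinearMap.congr_fun this w
    have h3 : (minors K fun i => π (u i)).map (LinearMap.mulLeft K b) ≤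
        minors K u ⊓ P.geSub (P.ord U.det + 1) := by
      rw [minors, Submodule.map_span, Submodule.span_le]
      rintro _ ⟨_, ⟨J, rfl⟩, rfl⟩
      let J' : Fin (k + 1) → ι := fun j => Sum.elim (fun _ => i) J (ε.symm j)
      let l : (Fin (k + 1) → F) →ₗ[F] F :=
        LinearMap.proj (ε (Sum.inl 0)) ∘ₗ cramer (Matrix.of fun j => u (J' j))ᵀ
      have hl : ∀ v, l v = ((Matrix.of fun j => u (J' j)).updateRow (ε (Sum.inl 0)) v).det :=
        fun v => cramer_transpose_apply _ _ _
      have hl1 : ∀ i', l (u i') =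
          (Matrix.of fun j => u (Function.update J' (ε (Sum.inl 0)) i' j)).det := fun i' => by
        rw [hl]
        congr 1
        ext j m
        rcases eq_or_ne j (ε (Sum.inl 0)) with rfl | hj
        · simp
        · simp [hj]
      have hl2 : LinearMap.mulLeft K b (Matrix.of fun j => π (u (J j))).det = l t := by
        have := hd 1 fun j => u (J j)
        rw [det_one, mul_one] at this
        rw [LinearMap.mulLeft_apply, ← this, hl]
        congr 1
        ext j m
        obtain ⟨j, rfl⟩ := ε.surjective j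
        rcases j with j | j
        · rw [Subsingleton.elim j 0]; simp
        · simp [J']
      have hl3 : ∀ i', l (u i') ∈ minors K u := fun i' =>
        hl1 i' ▸ Submodule.subset_span ⟨_, rfl⟩
      have hl4 : ∀ i', P.Ge (P.ord U.det) (l (u i')) := fun i' =>
        hl1 i' ▸ Place.ge_det_of_lat fun j => ⟨c _, hc _, e _⟩
      rw [hl2]
      constructor
      · rw [ht, map_sub, map_sum]
        refine Submodule.sub_mem _ (hl3 i) (Submodule.sum_mem _ fun j _ => ?_)
        rw [LinearMap.map_smul_of_tower]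
        exact Submodule.smul_mem _ _ (hl3 _)
      · have : t = ∑ j, (c i j - algebraMap K F (a i j)) • u (I j) := by
          rw [ht, e i, ← Finset.sum_sub_distrib]
          simp only [sub_smul, algebraMap_smul]
        rw [this, map_sum]
        refine Place.ge_sum fun j _ => ?_
        rw [map_smul, add_comm]
        exact (ha i j).mul (hl4 _)
    have h4 : minors K u ⊓ P.geSub (P.ord U.det + 1) < minors K u := by
      refine lt_of_le_of_ne inf_le_left fun h => ?_
      have h5 : U.det ∈ minors K u := Submodule.subset_span ⟨I, rfl⟩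
      rw [← h] at h5
      have := Place.Ge.le h5.2 hI
      omega
    have h5 := Submodule.finrank_lt_finrank_of_lt (h3.trans_lt h4)
    rw [← LinearEquiv.finrank_eq (Submodule.equivMapOfInjective _
      (mul_right_injective₀ hb) _)] at h5
    omega

theorem h0_dv_ge {u : ι → Fin n → F} (hu : Submodule.span F (Set.range u) = ⊤) (hn : NoTriv K u)
    {E : Bundle K F n} (hE : ∀ P, E.stalk P = P.lat u) : n + 1 ≤ h0 E.dv := by
  refine (minors_dim n u hu hn).trans (Submodule.finrank_mono ?_)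
  rw [minors, Submodule.span_le]
  rintro _ ⟨I, rfl⟩ P
  exact E.ge_det fun j => hE P ▸ Place.lat_self u _

theorem noTriv_of_rel {u : ι → Fin n → F} (hu : Submodule.span F (Set.range u) = ⊤) {a : ι → F}
    (ha : LinearIndependent K a) (h : ∑ i, a i • u i = 0) : NoTriv K u := by
  intro l hl
  choose c hc using hl
  have h1 := congrArg l h
  rw [map_sum, map_zero] at h1
  have h2 := Fintype.linearIndependent_iff.1 ha c (by
    rw [← h1]
    exact Finset.sum_congr rfl fun i _ => by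
      rw [map_smul, hc, smul_eq_mul, Algebra.smul_def, mul_comm])
  exact LinearMap.ext_on_range hu fun i => by simp [hc, h2]

variable {g : ℕ} {p : Fin g → Fin n → F} {a : Fin g → F}

theorem comb_surj {u : ι → Fin n → F} (hu : Submodule.span F (Set.range u) = ⊤) :
    Function.Surjective (Fintype.linearCombination F u) := by
  rw [← LinearMap.range_eq_top, Fintype.range_linearCombination, hu]

theorem rank_lt (hp : Submodule.span F (Set.range p) = ⊤) (ha : a ≠ 0)
    (h : ∑ i, a i • p i = 0) : n + 1 ≤ g := by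
  have h1 := LinearMap.finrank_range_add_finrank_ker (Fintype.linearCombination F p)
  rw [LinearMap.range_eq_top.2 (comb_surj hp), finrank_top, finrank_fin_fun,
    finrank_fin_fun] at h1
  have h2 : 0 < finrank F (LinearMap.ker (Fintype.linearCombination F p)) :=
    finrank_pos_iff_exists_ne_zero.2 ⟨⟨a, h⟩, fun e => ha (congrArg Subtype.val e)⟩
  omega

theorem ex_line (hp : Submodule.span F (Set.range p) = ⊤) (ha : a ≠ 0)
    (h : ∑ i, a i • p i = 0) (hg : n + 1 = g) :
    Ex (lineMap a) (Fintype.linearCombination F p) := by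
  refine ⟨lineMap_inj ha, comb_surj hp, Submodule.eq_of_le_of_finrank_eq ?_ ?_⟩
  · rintro _ ⟨c, rfl⟩
    rw [LinearMap.mem_ker, lineMap_apply, map_smul, Fintype.linearCombination_apply, h, smul_zero]
  · have h1 := LinearMap.finrank_range_add_finrank_ker (Fintype.linearCombination F p)
    rw [LinearMap.range_eq_top.2 (comb_surj hp), finrank_top, finrank_fin_fun,
      finrank_fin_fun] at h1
    rw [LinearMap.finrank_range_of_inj (lineMap_inj ha), finrank_fin_fun]
    omega

theorem rel_unique (hp : Submodule.span F (Set.range p) = ⊤) (ha : a ≠ 0)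
    (h : ∑ i, a i • p i = 0) (hg : n + 1 = g) {c : Fin g → F} (hc : ∑ i, c i • p i = 0) :
    ∃ l : F, ∀ i, c i = l * a i := by
  obtain ⟨v, hv⟩ := (ex_line hp ha h hg).lift (v := c) hc
  exact ⟨v 0, fun i => by rw [← hv]; rfl⟩

theorem deg_of_rel (hp : Submodule.span F (Set.range p) = ⊤) (ha : a ≠ 0)
    (h : ∑ i, a i • p i = 0) (hg : n + 1 = g) {A : Divisor K F} (hA : Bpf A a)
    {E : Bundle K F n} (hE : ∀ P, E.stalk P = P.lat p) : E.deg = deg A := by
  obtain ⟨L, hL, hL'⟩ := exists_line (-A)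
  obtain ⟨O, hO, hO'⟩ := exists_triv K F g
  have := Bundle.deg_add_eq (ex_line hp ha h hg) (E' := L) (E := O) (Q := E) (fun P v hv => ?_)
    (fun P => ?_) fun P v hv hv0 => ?_
  · rw [hL, hO, deg_neg] at this
    omega
  · rw [hO']
    intro i
    have := ((hL' P v).1 hv).mul (hA.1 i P)
    simpa using this
  · rw [hE]
    ext v
    constructor
    · rintro ⟨c, hc, rfl⟩
      exact ⟨c, (hO' P c).1 hc, rfl⟩
    · rintro ⟨c, hc, rfl⟩
      exact ⟨c, (hO' P c).2 hc, rfl⟩
  · obtain ⟨l, hl⟩ := rel_unique hp ha h hg hv0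
    refine ⟨fun _ => l, (hL' P _).2 ?_, funext fun i => (hl i).symm⟩
    have := hA.ge (P := P) (n := 0) (f := l) fun i => hl i ▸ (hO' P v).1 hv i
    simpa using this

end Pool.Agent.MP_79c67d_ag

end MrgPart1

-- ======== part 2: formerly Pool.Agent.MP_79c67d_ag.Noether
section MrgPart2

/-! The dual span of the canonical bundle has only the obvious sections. -/

set_option linter.unusedSectionVars false

namespace Pool.Agent.MP_79c67d_ag

open FF Module Matrix

variable {K F : Type} [Field K] [Field F] [Algebra K F] [IsFF K F] [CharZero K] [IsAlgClosed K]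

theorem finrank_range_le {V : Type} [AddCommGroup V] [Module K V] (Φ : V →ₗ[K] F)
    {D : Divisor K F} {b : F} (hb : b ≠ 0) (h : ∀ t, b * Φ t ∈ sec D) :
    finrank K (LinearMap.range Φ) ≤ h0 D := by
  rw [LinearEquiv.finrank_eq (Submodule.equivMapOfInjective (LinearMap.mulLeft K b)
    (mul_right_injective₀ hb) _)]
  refine Submodule.finrank_mono ?_
  rintro _ ⟨_, ⟨t, rfl⟩, rfl⟩
  exact h t

namespace Can

variable {g : ℕ} {W : Divisor K F} (hW : Can g W)
include hW

theorem noether_aux {V : Type} [AddCommGroup V] [Module K V] [FiniteDimensional K V]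
    (hV : finrank K V = g + 1) (N Y : V →ₗ[K] F) (η : Place K F → F)
    (ha : ∀ (P : Place K F) t, P.Ge 0 (N t - η P * Y t)) (hb : ∀ t, Y t ∈ sec W)
    (hc : ∀ t, Y t = 0 → N t = 0 → t = 0) {t0 : V} {P0 : Place K F} (h0' : Y t0 ≠ 0)
    (h1 : P0.Ge 1 (N t0 - η P0 * Y t0)) (h2 : P0.Ge (-W P0 + 1) (Y t0)) :
    ∀ y ∈ sec W, ∃ t, Y t = y ∧ N t0 * y = Y t0 * N t := by
  have br : ∀ (P : Place K F) t t', N t * Y t' - Y t * N t' =
      (N t - η P * Y t) * Y t' - Y t * (N t' - η P * Y t') := fun P t t' => by ring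
  have hbr : ∀ (P : Place K F) t t', P.Ge (-W P) (N t * Y t' - Y t * N t') := fun P t t' =>
    br P t t' ▸ ((ha P t).mul0 (hb t' P)).sub ((hb t P).mul0' (ha P t'))
  let Φ : V →ₗ[K] F := LinearMap.mulLeft K (N t0) ∘ₗ Y - LinearMap.mulLeft K (Y t0) ∘ₗ N
  have hΦ : ∀ t, Φ t = N t0 * Y t - Y t0 * N t := fun _ => rfl
  have h3 := LinearMap.finrank_range_add_finrank_ker Φ
  have h4 := finrank_range_le Φ (D := W - Finsupp.single P0 1) one_ne_zero fun t => by
    rw [one_mul, hΦ]
    refine mem_sec_sub (fun P => hbr P t0 t) ?_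
    rw [br P0]
    exact ((h1.mul (hb t P0)).mono (by omega)).sub (h2.mul0' (ha P0 t))
  have h5 := hW.h0_W_sub P0
  have h6 : finrank K ((LinearMap.ker Φ).map Y) = finrank K (LinearMap.ker Φ) := by
    rw [← LinearMap.range_domRestrict]
    refine LinearMap.finrank_range_of_inj ?_
    rw [injective_iff_map_eq_zero]
    rintro ⟨t, ht⟩ h
    have h7 : Y t = 0 := h
    rw [LinearMap.mem_ker, hΦ, h7, mul_zero, zero_sub, neg_eq_zero] at ht
    exact Subtype.ext (hc t h7 ((mul_eq_zero.1 ht).resolve_left h0'))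
  obtain ⟨D, h7, h8⟩ := exists_base' ((LinearMap.ker Φ).map Y) (by omega)
  have h9 := finrank_range_le Φ (D := W - D) (inv_ne_zero h0') fun t P => by
    obtain ⟨_, ⟨t1, ht1, rfl⟩, h9, h10⟩ := h8 P
    refine Place.Ge.of_mul h9 ?_
    have e1 : N t0 * Y t1 - Y t0 * N t1 = 0 := ht1
    have e : (Y t0)⁻¹ * Φ t * Y t1 = N t1 * Y t - Y t1 * N t := by
      rw [hΦ]
      field_simp
      linear_combination Y t * e1
    rw [e, h10, Finsupp.sub_apply]
    exact (hbr P t1 t).mono (by omega)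
  have h10 : finrank K ((LinearMap.ker Φ).map Y) ≤ h0 D := Submodule.finrank_mono h7
  have h11 := hW.cliff (D := D) (by omega) (by omega)
  have h12 := hW.nh' (D := W - D) (by rw [deg_sub, hW.deg_W]; omega)
  have h13 : (LinearMap.ker Φ).map Y = sec W := by
    refine Submodule.eq_of_le_of_finrank_le (by rintro _ ⟨t, -, rfl⟩; exact hb t) ?_
    have := hW.h0_W
    unfold h0 at this
    omega
  intro y hy
  rw [← h13] at hy
  obtain ⟨t, ht, rfl⟩ := hy
  exact ⟨t, rfl, sub_eq_zero.1 ht⟩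

theorem noether {y z : Fin g → F} (hy : LinearIndependent K y)
    (hs : Submodule.span K (Set.range y) = sec W)
    (h : ∀ P : Place K F, ∃ η : F, ∀ j, P.Ge 0 (z j - η * y j)) :
    ∃ μ : F, ∀ j, ∃ c : K, z j - μ * y j = algebraMap K F c := by
  classical
  choose η hη using h
  let Y : (K × (Fin g → K)) →ₗ[K] F := Fintype.linearCombination K y ∘ₗ LinearMap.snd K _ _
  let N : (K × (Fin g → K)) →ₗ[K] F := (Algebra.linearMap K F).coprod
    (Fintype.linearCombination K z)
  have hY : ∀ t, Y t = ∑ j, t.2 j • y j := fun _ => rfl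
  have hN : ∀ t, N t = algebraMap K F t.1 + ∑ j, t.2 j • z j := fun _ => rfl
  have ha : ∀ (P : Place K F) t, P.Ge 0 (N t - η P * Y t) := fun P t => by
    have : N t - η P * Y t = algebraMap K F t.1 + ∑ j, t.2 j • (z j - η P * y j) := by
      rw [hY, hN, Finset.mul_sum, add_sub_assoc, ← Finset.sum_sub_distrib]
      simp only [smul_sub, mul_smul_comm]
    rw [this]
    exact (P.ge_const _).add (Place.ge_sum fun j _ => (hη P j).smul _)
  have hb : ∀ t, Y t ∈ sec W := fun t =>
    hs ▸ (Submodule.mem_span_range_iff_exists_fun K).2 ⟨t.2, rfl⟩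
  have hinj : ∀ t, Y t = 0 → t.2 = 0 := fun t ht =>
    funext (Fintype.linearIndependent_iff.1 hy t.2 ht)
  obtain ⟨P0⟩ : Nonempty (Place K F) := inferInstance
  have h1 := hW.h0_W_sub P0
  have h3 := hW.three_le
  obtain ⟨y0, h4, h5⟩ := exists_ne_of_h0 (D := W - Finsupp.single P0 1) (by omega)
  obtain ⟨k0, rfl⟩ := (Submodule.mem_span_range_iff_exists_fun K).1
    (hs ▸ sec_mono (sub_pt_le W P0) h4)
  obtain ⟨c0, hc0⟩ := P0.residue (ha P0 (0, k0))
  have key := hW.noether_aux (by simp [add_comm]) N Y η ha hb (fun t h6 h7 => by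
      have h8 := hinj t h6
      rw [hN, h8] at h7
      exact Prod.ext (by simpa using h7) h8) (t0 := (-c0, k0)) (P0 := P0) h5
    (by convert hc0 using 1; simp only [hN, hY, map_neg, map_zero]; ring) (ge_of_mem_sub h4)
  refine ⟨N (-c0, k0) / Y (-c0, k0), fun j => ?_⟩
  obtain ⟨t, h6, h7⟩ := key (y j) (hs ▸ Submodule.subset_span ⟨j, rfl⟩)
  have h8 : t.2 = Pi.single j 1 := by
    have := hinj (t - (0, Pi.single j 1)) (by
      rw [map_sub, h6, hY]; simp [Pi.single_apply])
    exact sub_eq_zero.1 this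
  have h9 : N t = algebraMap K F t.1 + z j := by
    rw [hN, h8]; simp [Pi.single_apply]
  have h10 : Y (-c0, k0) ≠ 0 := h5
  refine ⟨-t.1, ?_⟩
  rw [h9] at h7
  rw [map_neg]
  field_simp
  linear_combination -h7

/-- Global sections of the dual span of the canonical bundle. -/
theorem sections {n : ℕ} {y : Fin g → F} (hy : LinearIndependent K y)
    (hs : Submodule.span K (Set.range y) = sec W) {p : Fin g → Fin n → F}
    (hp : Submodule.span F (Set.range p) = ⊤) (h : ∑ i, y i • p i = 0) (hg : n + 1 = g)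
    {v : Fin n → F} (hv : ∀ P : Place K F, v ∈ P.lat p) : ∃ k : Fin g → K, v = ∑ j, k j • p j := by
  have hy0 : y ≠ 0 := fun e => hy.ne_zero ⟨0, by omega⟩ (congrFun e _)
  obtain ⟨z, hz⟩ := comb_surj hp v
  rw [Fintype.linearCombination_apply] at hz
  obtain ⟨μ, hμ⟩ := hW.noether (z := z) hy hs fun P => by
    obtain ⟨c, hc, e⟩ := hv P
    obtain ⟨l, hl⟩ := rel_unique hp hy0 h hg (c := z - c) (by
      simp only [Pi.sub_apply, sub_smul, Finset.sum_sub_distrib, hz, ← e, sub_self])
    refine ⟨l, fun j => ?_⟩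
    rw [← hl j, Pi.sub_apply, sub_sub_cancel]
    exact hc j
  choose k hk using hμ
  refine ⟨k, ?_⟩
  have : ∑ j, k j • p j = ∑ j, z j • p j - μ • ∑ j, y j • p j := by
    rw [Finset.smul_sum, ← Finset.sum_sub_distrib]
    exact Finset.sum_congr rfl fun j _ => by
      rw [← algebraMap_smul F, ← hk, sub_smul, mul_smul]
  rw [this, h, smul_zero, sub_zero, hz]

end Can

end Pool.Agent.MP_79c67d_ag

end MrgPart2

-- ======== part 3: formerly Pool.Agent.MP_79c67d_ag.Constr
section MrgPart3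

/-! The dual span of a nonsplit extension of the canonical bundle by a line bundle of degree
`2g - 1` is stable. -/

set_option linter.unusedSectionVars false

namespace Pool.Agent.MP_79c67d_ag

open FF Module Matrix

variable {K F : Type} [Field K] [Field F] [Algebra K F] [IsFF K F] [CharZero K] [IsAlgClosed K]

/-- A nonsplit extension of `O(W)` by `O(A)` with its sections `(a i, 0)`, `(x j, y j)`. -/
structure Data (g : ℕ) (W A : Divisor K F) (y a x : Fin g → F) : Prop where
  can : Can g W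
  hy : LinearIndependent K y
  hys : Submodule.span K (Set.range y) = sec W
  hyb : Bpf W y
  ha : LinearIndependent K a
  hab : Bpf A a
  degA : deg A = 2 * g - 1
  hx : ∀ P : Place K F, ∃ ξ : F, ∀ j, P.Ge (-A P) (x j - ξ * y j)
  nonsplit : ∀ ν : F, ¬ ∀ j, x j - ν * y j ∈ sec A

theorem Can.exists_data {g : ℕ} {W : Divisor K F} (hW : Can g W) :
    ∃ (A : Divisor K F) (y a x : Fin g → F), Data g W A y a x := by
  obtain ⟨G, hG, hG2⟩ := hW.exists_G
  obtain ⟨P0⟩ : Nonempty (Place K F) := inferInstance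
  have hdW := hW.deg_W
  obtain ⟨A, hA⟩ : ∃ A, A = W + G - Finsupp.single P0 1 := ⟨_, rfl⟩
  have hdA : deg A = 2 * g - 1 := by rw [hA, deg_sub, deg_add, deg_single]; omega
  have h1 := hW.nonspecial (D := A) (by omega)
  obtain ⟨y, hy, hys, hyb⟩ := exists_bpf hW.h0_W fun P => by
    have := hW.h0_W_sub P
    have := hW.h0_W
    omega
  obtain ⟨a, ha, -, hab⟩ := exists_bpf (D := A) (g := g) (by omega) fun P => by
    have h2 := hW.rr (A - Finsupp.single P 1)
    rw [deg_sub, deg_single] at h2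
    by_contra hn
    obtain ⟨f, hf, hf0⟩ := exists_ne_of_h0 (D := W - (A - Finsupp.single P 1)) (by omega)
    have h3 := eq_zero_of_deg_eq_zero ((mem_sec_iff hf0).1 hf) (by
      rw [deg_add, deg_div, deg_sub, deg_sub, deg_single]; omega)
    refine inv_ne_zero hf0 (eq_zero_of_h0 hG ((mem_sec_iff (inv_ne_zero hf0)).2 ?_))
    have : div K f⁻¹ + G = Finsupp.single P0 1 + Finsupp.single P 1 := by
      rw [FF.div_inv, eq_neg_of_add_eq_zero_left h3, hA]; abel
    rw [this]
    exact add_nonneg (Finsupp.single_nonneg.2 zero_le_one) (Finsupp.single_nonneg.2 zero_le_one)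
  obtain ⟨x0, hx0, hx0'⟩ : ∃ x0 ∈ sec (A + Finsupp.single P0 1), x0 ∉ sec A := by
    by_contra hn
    push Not at hn
    have h2 := hW.nonspecial (D := A + Finsupp.single P0 1) (by rw [deg_add, deg_single]; omega)
    rw [deg_add, deg_single] at h2
    have h3 : h0 (A + Finsupp.single P0 1) ≤ h0 A := Submodule.finrank_mono hn
    omega
  obtain ⟨j0, h2, h3⟩ := hyb.2 P0
  have h4 : ¬ P0.Ge (-W P0 + 1) (y j0) := fun h => by
    have := h.le h2
    omega
  choose κ hκ using fun j => exists_sub_ge P0 (hyb.1 j0 P0) h4 (hyb.1 j P0)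
  refine ⟨A, y, a, fun j => κ j • x0, hW, hy, hys, hyb, ha, hab, hdA, fun P => ?_, fun ν hν => ?_⟩
  · rcases eq_or_ne P P0 with rfl | hP
    · refine ⟨x0 / y j0, fun j => Place.Ge.of_mul h2 ?_⟩
      have : (κ j • x0 - x0 / y j0 * y j) * y j0 = -(x0 * (y j - κ j • y j0)) := by
        simp only [Algebra.smul_def]
        field_simp
        ring
      rw [this]
      have h5 := hx0 P
      rw [Finsupp.add_apply, Finsupp.single_eq_same] at h5
      exact ((h5.mul (hκ j)).mono (by omega)).neg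
    · refine ⟨0, fun j => ?_⟩
      have h5 := hx0 P
      rw [Finsupp.add_apply, Finsupp.single_eq_of_ne hP, add_zero] at h5
      simpa using h5.smul (κ j)
  · have h5 : ν ∈ sec G := fun P => by
      refine (hyb.ge (P := P) (n := -(A + Finsupp.single P0 1 : Divisor K F) P) fun j => ?_).mono ?_
      · have := Submodule.sub_mem _ (Submodule.smul_mem _ (κ j) hx0)
          (sec_mono (le_add_pt A P0) (hν j))
        rw [sub_sub_cancel] at this
        exact this P
      · rw [hA, sub_add_cancel, Finsupp.add_apply]; omega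
    have h6 := hν j0
    rw [eq_zero_of_h0 hG h5, zero_mul, sub_zero] at h6
    have h7 : κ j0 ≠ 0 := fun h => h4 (by simpa [h] using hκ j0)
    exact hx0' ((Submodule.smul_mem_iff _ h7).1 h6)

theorem Can.deg_fam {g : ℕ} {W : Divisor K F} (hW : Can g W) {n : ℕ} {p : Fin g → Fin n → F}
    {a : Fin g → F} (hp : Submodule.span F (Set.range p) = ⊤) (ha : LinearIndependent K a)
    (h : ∑ i, a i • p i = 0) {A : Divisor K F} (hA : Bpf A a) {E : Bundle K F n}
    (hE : ∀ P, E.stalk P = P.lat p) : n + 1 ≤ g ∧ (n = 0 → E.deg = 0) ∧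
      (1 ≤ n → n + 2 ≤ g → 2 * (n : ℤ) + 1 ≤ E.deg) ∧ (n + 1 = g → E.deg = deg A) := by
  have h3 := hW.three_le
  have ha0 : a ≠ 0 := fun e => ha.ne_zero ⟨0, by omega⟩ (congrFun e _)
  refine ⟨rank_lt hp ha0 h, ?_, fun h1 h2 => ?_, fun h1 => deg_of_rel hp ha0 h h1 hA hE⟩
  · rintro rfl
    exact E.deg_rank_zero
  · rw [← E.deg_dv]
    exact hW.deg_ge (h0_dv_ge hp (noTriv_of_rel hp ha h) hE) h1 h2

namespace Data

variable {g : ℕ} {W A : Divisor K F} {y a x : Fin g → F} (hD : Data g W A y a x)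
include hD

theorem quot_bound {s : ℕ} {q : Fin g ⊕ Fin g → Fin s → F}
    (hq : Submodule.span F (Set.range q) = ⊤)
    (h1 : ∑ i, a i • q (Sum.inl i) + ∑ j, x j • q (Sum.inr j) = 0)
    (h2 : ∑ j, y j • q (Sum.inr j) = 0) {Q : Bundle K F s} (hQ : ∀ P, Q.stalk P = P.lat q) :
    (s + 2 = 2 * g → Q.deg = 4 * g - 3) ∧ (1 ≤ s → 2 * (s : ℤ) + 1 ≤ Q.deg) := by
  have hW := hD.can
  have h3 := hW.three_le
  have hy0 : y ≠ 0 := fun e => hD.hy.ne_zero ⟨0, by omega⟩ (congrFun e _)
  have ha0 : a ≠ 0 := fun e => hD.ha.ne_zero ⟨0, by omega⟩ (congrFun e _)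
  obtain ⟨φ, hφ, hφr⟩ := exists_incl (Submodule.span F (Set.range fun j => q (Sum.inr j)))
  generalize finrank F (Submodule.span F (Set.range fun j => q (Sum.inr j))) = s1 at φ hφ hφr
  have hs1 : s1 ≤ s := by simpa using LinearMap.finrank_le_finrank_of_injective hφ
  obtain ⟨s2, hs2⟩ := Nat.exists_eq_add_of_le hs1
  obtain ⟨π, hπ⟩ := exists_ex hφ hs2.symm
  have hmem : ∀ j, q (Sum.inr j) ∈ LinearMap.range φ := fun j =>
    hφr ▸ Submodule.subset_span ⟨j, rfl⟩
  choose p hp using hmem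
  have hp1 : Submodule.span F (Set.range p) = ⊤ := by
    apply Submodule.map_injective_of_injective hφ
    rw [Submodule.map_span, Submodule.map_top, hφr, ← Set.range_comp]
    congr 2
    exact funext hp
  have hp2 : ∑ j, y j • p j = 0 := hφ (by simpa [map_sum, hp] using h2)
  have hπq : ∀ j, π (q (Sum.inr j)) = 0 := fun j => hp j ▸ hπ.comp _
  have hr1 : Submodule.span F (Set.range fun i => π (q (Sum.inl i))) = ⊤ := by
    rw [eq_top_iff, ← span_map hq hπ.surj, Submodule.span_le]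
    rintro _ ⟨i | j, rfl⟩
    · exact Submodule.subset_span ⟨i, rfl⟩
    · simp [hπq]
  have hr2 : ∑ i, a i • π (q (Sum.inl i)) = 0 := by
    simpa [map_sum, hπq] using congrArg π h1
  obtain ⟨Q1, hQ1⟩ := exists_bundle K hp1
  obtain ⟨Q2, hQ2⟩ := exists_bundle K hr1
  obtain ⟨a1, a2, a3, a4⟩ := hW.deg_fam hp1 hD.hy hp2 hD.hyb hQ1
  obtain ⟨b1, b2, b3, b4⟩ := hW.deg_fam hr1 hD.ha hr2 hD.hab hQ2
  rw [hW.deg_W] at a4
  rw [hD.degA] at b4
  have m1 : ∀ P, Set.MapsTo φ (Q1.stalk P) (Q.stalk P) := fun P => by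
    rw [Set.mapsTo_iff_image_subset, hQ1, hQ, Place.lat_map]
    exact Place.lat_subset fun j => hp j ▸ Place.lat_self q _
  have m2 : ∀ P, π '' Q.stalk P = Q2.stalk P := fun P => by
    rw [hQ2, hQ, Place.lat_map]
    refine (Place.lat_subset ?_).antisymm
      (Place.lat_subset fun i => Place.lat_self (fun i => π (q i)) _)
    rintro (i | j)
    · exact Place.lat_self (fun i => π (q (Sum.inl i))) i
    · rw [hπq]; exact Place.lat_zero
  have hle := Bundle.deg_add_le hπ m1 fun P => (m2 P).ge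
  refine ⟨fun hs => ?_, fun hs => ?_⟩
  · rw [← Bundle.deg_add_eq hπ m1 m2 fun P v hv hv0 => ?_, a4 (by omega), b4 (by omega)]
    · ring
    rw [hQ] at hv
    obtain ⟨c, hc, rfl⟩ := hv
    rw [Fintype.sum_sum_type] at hv0 ⊢
    obtain ⟨l, hl⟩ := rel_unique hr1 ha0 hr2 (by omega) (c := fun i => c (Sum.inl i)) (by
      simpa [map_sum, hπq] using hv0)
    have hl1 := hD.hab.ge (P := P) (n := 0) (f := l) fun i => hl i ▸ hc _
    obtain ⟨ξ, hξ⟩ := hD.hx P
    refine ⟨∑ j, (c (Sum.inr j) - l * (x j - ξ * y j)) • p j, ?_, ?_⟩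
    · rw [hQ1]
      exact ⟨_, fun j => (hc _).sub ((hl1.mul (hξ j)).mono (by omega)), rfl⟩
    · have e1 := congrArg (l • ·) h1
      have e2 := congrArg ((l * ξ) • ·) h2
      simp only [smul_add, Finset.smul_sum, smul_smul, smul_zero] at e1 e2
      rw [map_sum]
      simp only [map_smul, hp]
      simp only [hl, mul_sub, sub_smul, Finset.sum_sub_distrib,
        ← mul_assoc, e2, sub_zero, eq_neg_of_add_eq_zero_left e1]
      abel
  · by_contra hn
    have hs20 : s2 = 0 := by omega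
    have hsat := Bundle.sat_of_deg hπ m1 (fun P => (m2 P).ge) (by omega)
    have hz : ∀ v, π v = 0 := fun v => by subst hs20; exact Subsingleton.elim _ _
    choose v hv using fun i => hπ.lift (hz (q (Sum.inl i)))
    choose k hk using fun i => hW.sections hD.hy hD.hys hp1 hp2 (by omega) (v := v i) fun P => by
      obtain ⟨w, hw, e⟩ := hsat P (q (Sum.inl i)) (hQ P ▸ Place.lat_self q _) (hz _)
      rw [← hQ1, ← hφ (e.trans (hv i).symm)]
      exact hw
    obtain ⟨ν, hν⟩ := rel_unique hp1 hy0 hp2 (by omega)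
      (c := fun j => ∑ i, k i j • a i + x j) (by
        have e : ∑ i, a i • v i + ∑ j, x j • p j = 0 := hφ (by simpa [map_sum, hp, hv] using h1)
        simp only [add_smul, Finset.sum_add_distrib, Finset.sum_smul]
        rw [← e, Finset.sum_comm]
        congr 1
        refine Finset.sum_congr rfl fun i _ => ?_
        rw [hk, Finset.smul_sum]
        exact Finset.sum_congr rfl fun j _ => by rw [smul_assoc, smul_comm])
    refine hD.nonsplit ν fun j => ?_
    rw [← hν j, sub_add_cancel_right]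
    exact Submodule.neg_mem _ (Submodule.sum_mem _ fun i _ => Submodule.smul_mem _ _ (hD.hab.1 i))

end Data

theorem eq_zero_of_const {g : ℕ} (hg : 2 ≤ g) {a : Fin g → F} (ha : LinearIndependent K a) {l : F}
    (h : ∀ i, ∃ c : K, l * a i = algebraMap K F c) : l = 0 := by
  by_contra hl
  obtain ⟨c, hc⟩ := h ⟨0, by omega⟩
  obtain ⟨d, hd⟩ := h ⟨1, by omega⟩
  have h1 := (ha.comp ![⟨0, by omega⟩, ⟨1, by omega⟩] (by
    intro i j; fin_cases i <;> fin_cases j <;> simp))
  have h2 := Fintype.linearIndependent_iff.1 h1 ![d, -c] (by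
    apply mul_left_cancel₀ hl
    simp only [Fin.sum_univ_two, Function.comp_apply, cons_val_zero, cons_val_one,
      Algebra.smul_def, ← hc, ← hd, map_neg, cons_val_fin_one]
    ring) 1
  simp only [cons_val_one, cons_val_fin_one, neg_eq_zero] at h2
  rw [h2, map_zero] at hc
  exact mul_ne_zero hl (ha.ne_zero _) hc

theorem Data.exists_family {g : ℕ} {W A : Divisor K F} {y a x : Fin g → F}
    (hD : Data g W A y a x) {r : ℕ} (hr : r + 2 = 2 * g) :
    ∃ q : Fin g ⊕ Fin g → Fin r → F, Submodule.span F (Set.range q) = ⊤ ∧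
      ∑ i, a i • q (Sum.inl i) + ∑ j, x j • q (Sum.inr j) = 0 ∧
      ∑ j, y j • q (Sum.inr j) = 0 ∧ LinearIndependent K q := by
  classical
  have h3 := hD.can.three_le
  let τ : Fin 2 → Fin g ⊕ Fin g → F := ![Sum.elim a x, Sum.elim 0 y]
  have hτ : LinearIndependent F τ := by
    rw [LinearIndependent.pair_iff]
    intro l m h
    have h1 := congrFun h (Sum.inl ⟨0, by omega⟩)
    have h2 := congrFun h (Sum.inr ⟨0, by omega⟩)
    have h4 : l = 0 := by simpa [hD.ha.ne_zero] using h1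
    exact ⟨h4, by simpa [h4, hD.hy.ne_zero] using h2⟩
  obtain ⟨π, hπ, hker⟩ := exists_quot (Submodule.span F (Set.range τ)) (s := r) (by
    rw [finrank_span_eq_card hτ]; simp; omega)
  have hc : ∀ c : Fin g ⊕ Fin g → F, ∑ i, c i • π (Pi.single i 1) = π c := fun c => by
    conv_rhs => rw [pi_eq_sum_univ' c]
    simp [map_sum]
  have hτ0 : ∀ i, π (τ i) = 0 := fun i => by
    rw [← LinearMap.mem_ker, hker]; exact Submodule.subset_span ⟨i, rfl⟩
  refine ⟨fun i => π (Pi.single i 1), ?_, ?_, ?_, ?_⟩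
  · rw [eq_top_iff]
    intro v _
    obtain ⟨c, rfl⟩ := hπ v
    exact (Submodule.mem_span_range_iff_exists_fun F).2 ⟨c, hc c⟩
  · have := hτ0 0
    rw [← hc, Fintype.sum_sum_type] at this
    exact this
  · have := hτ0 1
    rw [← hc, Fintype.sum_sum_type] at this
    simpa [τ] using this
  · rw [Fintype.linearIndependent_iff]
    intro k hk
    have h1 : (fun i => algebraMap K F (k i)) ∈ Submodule.span F (Set.range τ) := by
      rw [← hker, LinearMap.mem_ker, ← hc, ← hk]
      simp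
    obtain ⟨l, hl⟩ := (Submodule.mem_span_range_iff_exists_fun F).1 h1
    have h2 : l 0 = 0 := eq_zero_of_const (by omega) hD.ha fun i => ⟨k (Sum.inl i), by
      simpa [τ] using congrFun hl (Sum.inl i)⟩
    have h4 : l 1 = 0 := eq_zero_of_const (by omega) hD.hy fun i => ⟨k (Sum.inr i), by
      simpa [τ, h2] using congrFun hl (Sum.inr i)⟩
    intro i
    have := congrFun hl i
    simpa [h2, h4] using this.symm

theorem Can.exists_stable {g : ℕ} {W : Divisor K F} (hW : Can g W) {r : ℕ} (hr : r + 2 = 2 * g) :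
    ∃ S : CohSys K F r, S.HasType (4 * g - 3) (2 * g) ∧ S.Generated ∧
      ∃ ε : ℝ, 0 < ε ∧ ∀ α, 0 < α → α < ε → S.Stable α := by
  have h3 := hW.three_le
  obtain ⟨A, y, a, x, hD⟩ := hW.exists_data
  obtain ⟨q, hq, h1, h2, hli⟩ := hD.exists_family hr
  obtain ⟨E, hE⟩ := exists_bundle K hq
  have hd := (hD.quot_bound hq h1 h2 hE).1 hr
  have hn : finrank K (Submodule.span K (Set.range q)) = 2 * g := by
    rw [finrank_span_eq_card hli]; simp; omega
  have hr0 : (0 : ℝ) < r := by exact_mod_cast (by omega : 0 < r)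
  have hg0 : (0 : ℝ) < g := by exact_mod_cast (by omega : 0 < g)
  refine ⟨⟨E, Submodule.span K (Set.range q), fun s hs P => hE P ▸ Place.lat_span hs⟩,
    ⟨hd, hn⟩, fun P s hs => ⟨g + g, q ∘ finSumFinEquiv.symm,
      fun i => Submodule.subset_span ⟨_, rfl⟩, ?_⟩, 1 / (2 * g * r), by positivity,
    fun α hα hα' m T φ hm hT hne => ?_⟩
  · refine Place.lat_subset (fun i => ?_) (hE P ▸ hs)
    simpa using Place.lat_self (q ∘ finSumFinEquiv.symm) (finSumFinEquiv i)
  obtain ⟨hφ, hT1, hT2⟩ := hT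
  have hmr : m ≤ r := by simpa using LinearMap.finrank_le_finrank_of_injective hφ
  obtain ⟨s, hs⟩ := Nat.exists_eq_add_of_le hmr
  obtain ⟨π, hπ⟩ := exists_ex hφ hs.symm
  obtain ⟨Q, hQ⟩ := exists_bundle K (span_map hq hπ.surj)
  have hb := (hD.quot_bound (span_map hq hπ.surj) (by simpa [map_sum] using congrArg π h1)
    (by simpa [map_sum] using congrArg π h2) hQ).2
  have m2 : ∀ P, Set.SurjOn π (E.stalk P) (Q.stalk P) := fun P => by
    rw [Set.SurjOn, hQ, hE, Place.lat_map]
  have hle : T.E.deg + Q.deg ≤ E.deg := Bundle.deg_add_le hπ hT1 m2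
  have hV : T.V.map (φ.restrictScalars K) ≤ Submodule.span K (Set.range q) := by
    rintro _ ⟨v, hv, rfl⟩; exact hT2 hv
  have hfin : FiniteDimensional K (Submodule.span K (Set.range q)) :=
    FiniteDimensional.span_of_finite K (Set.finite_range _)
  have hV1 : finrank K (T.V.map (φ.restrictScalars K)) = finrank K T.V :=
    (LinearEquiv.finrank_eq (Submodule.equivMapOfInjective (φ.restrictScalars K) hφ _)).symm
  have hV2 := Submodule.finrank_mono hV
  rw [hn, hV1] at hV2
  have hV3 : (finrank K T.V : ℝ) ≤ 2 * g := by exact_mod_cast hV2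
  simp only [CohSys.slope, hn, hd]
  push_cast
  rcases Nat.eq_zero_or_pos s with rfl | hs0
  · rw [add_zero] at hs
    subst hs
    rw [Q.deg_rank_zero, add_zero] at hle
    rw [← add_div, ← add_div, div_lt_div_iff_of_pos_right hr0]
    rcases hle.lt_or_eq with h4 | h4
    · have : (T.E.deg : ℝ) < 4 * g - 3 := by rw [hd] at h4; exact_mod_cast h4
      nlinarith
    · have hsat := Bundle.sat_of_deg hπ hT1 m2 (by rw [Q.deg_rank_zero, add_zero]; exact h4.ge)
      have h5 : T.V.map (φ.restrictScalars K) < Submodule.span K (Set.range q) :=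
        lt_of_le_of_ne hV fun e => hne ⟨fun P v hv => hsat P v hv (Subsingleton.elim _ _),
          fun v hv => by
            have : v ∈ T.V.map (φ.restrictScalars K) := e ▸ hv
            exact this⟩
      have h6 := Submodule.finrank_lt_finrank_of_lt h5
      rw [hn, hV1] at h6
      have h7 : (finrank K T.V : ℝ) < 2 * g := by exact_mod_cast h6
      rw [h4, hd]
      push_cast
      nlinarith
  · have h4 : T.E.deg ≤ 2 * m := by have := hb hs0; omega
    have h5 : (T.E.deg : ℝ) ≤ 2 * m := by exact_mod_cast h4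
    have hm1 : (1 : ℝ) ≤ m := by exact_mod_cast hm
    have h6 : (T.E.deg : ℝ) / m ≤ 2 := by rw [div_le_iff₀ (by linarith)]; exact h5
    have h7 : α * (finrank K T.V : ℝ) / m ≤ α * (2 * g) :=
      (div_le_self (by positivity) hm1).trans (by gcongr)
    have h8 : (4 * g - 3 : ℝ) / r = 2 + 1 / r := by
      have : (r : ℝ) + 2 = 2 * g := by exact_mod_cast hr
      field_simp
      linarith
    have h9 : α * (2 * g) < 1 / r := by
      rw [lt_div_iff₀ (by positivity)] at hα'
      rw [lt_div_iff₀ hr0]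
      linarith
    have h10 : 0 ≤ α * (2 * g) / r := by positivity
    linarith

end Pool.Agent.MP_79c67d_ag

end MrgPart3

-- ======== part 4: formerly Pool.Agent.MP_79c67d_ag.Rank2
section MrgPart4

/-! Rank two bundles: Hermite form, half of Riemann-Roch, instability in type
`(2, 4g - 3, 2g)`. -/

set_option linter.unusedSectionVars false

namespace Pool.Agent.MP_79c67d_ag

open FF Module Matrix

variable {K F : Type} [Field K] [Field F] [Algebra K F] [IsFF K F] [CharZero K] [IsAlgClosed K]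

/-- Sections of an extension of `O(B)` by `O(A)`. -/
def HH (A B : Divisor K F) (ξ : Place K F → F) : Submodule K (F × F) where
  carrier := {v | ∀ P : Place K F, P.Ge (-B P) v.2 ∧ P.Ge (-A P) (v.1 - ξ P * v.2)}
  add_mem' := fun {v w} hv hw P => ⟨(hv P).1.add (hw P).1, by
    have := (hv P).2.add (hw P).2
    rwa [show v.1 - ξ P * v.2 + (w.1 - ξ P * w.2) = (v + w).1 - ξ P * (v + w).2 by
      simp only [Prod.fst_add, Prod.snd_add]; ring] at this⟩
  zero_mem' := fun P => ⟨P.ge_zero _, by simpa using P.ge_zero _⟩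
  smul_mem' := fun c v hv P => ⟨(hv P).1.smul c, by
    have := (hv P).2.smul c
    rwa [smul_sub, ← mul_smul_comm] at this⟩

theorem HH_split {A B : Divisor K F} {ξ : Place K F → F} (h : ∀ P : Place K F, P.Ge (B P - A P) (ξ P)) :
    HH A B ξ = (sec A).prod (sec B) := by
  ext v
  have key : ∀ P : Place K F, P.Ge (-B P) v.2 → P.Ge (-A P) (ξ P * v.2) := fun P h1 =>
    ((h P).mul h1).mono (by omega)
  constructor
  · intro hv
    exact ⟨fun P => by simpa using (hv P).2.add (key P (hv P).1), fun P => (hv P).1⟩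
  · intro hv P
    exact ⟨hv.2 P, (hv.1 P).sub (key P (hv.2 P))⟩

theorem finrank_prod_sec (A B : Divisor K F) : FiniteDimensional K ((sec A).prod (sec B)) ∧
    finrank K ((sec A).prod (sec B)) = h0 A + h0 B := by
  let m : (sec A × sec B) →ₗ[K] F × F := (sec A).subtype.prodMap (sec B).subtype
  have h1 : LinearMap.range m = (sec A).prod (sec B) := by
    rw [LinearMap.range_prodMap, Submodule.range_subtype, Submodule.range_subtype]
  have h2 : Function.Injective m := Subtype.val_injective.prodMap Subtype.val_injective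
  rw [← h1, LinearMap.finrank_range_of_inj h2, finrank_prod]
  exact ⟨inferInstance, rfl⟩

theorem HH_fin (A B : Divisor K F) {C : Divisor K F} {ξ : Place K F → F}
    (h : ∀ P : Place K F, P.Ge (-C P) (ξ P)) : FiniteDimensional K (HH A B ξ) := by
  have h1 := (finrank_prod_sec (A ⊔ (B + C)) B).1
  rw [← HH_split (ξ := ξ) fun P => (h P).mono (by
    have := (le_sup_right : B + C ≤ A ⊔ (B + C)) P
    rw [Finsupp.add_apply] at this
    omega)] at h1
  exact Submodule.finiteDimensional_of_le (S₂ := HH (A ⊔ (B + C)) B ξ) fun v hv P =>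
    ⟨(hv P).1, (hv P).2.mono (neg_le_neg ((le_sup_left : A ≤ A ⊔ (B + C)) P))⟩

theorem finrank_step {M : Type} [AddCommGroup M] [Module K M] (V V' : Submodule K M)
    [FiniteDimensional K V] (l : M →ₗ[K] F) (P : Place K F) (n : ℤ)
    (h1 : ∀ v ∈ V', P.Ge n (l v)) (h2 : ∀ v ∈ V', P.Ge (n + 1) (l v) → v ∈ V) :
    finrank K V' ≤ finrank K V + 1 := by
  refine (finrank_le_succ V V' fun w1 h3 h4 w2 h5 => ?_).2
  obtain ⟨c, hc⟩ := exists_sub_ge P (h1 _ h3) (fun h => h4 (h2 _ h3 h)) (h1 _ h5)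
  exact ⟨c, h2 _ (Submodule.sub_mem _ h5 (Submodule.smul_mem _ _ h3)) (by
    rwa [map_sub, map_smul])⟩

theorem add_pt_ne (D : Divisor K F) {P Q : Place K F} (h : Q ≠ P) :
    (D + Finsupp.single P 1 : Divisor K F) Q = D Q := by
  rw [Finsupp.add_apply, Finsupp.single_eq_of_ne h, add_zero]

theorem add_pt_eq (D : Divisor K F) (P : Place K F) :
    (D + Finsupp.single P 1 : Divisor K F) P = D P + 1 := by
  rw [Finsupp.add_apply, Finsupp.single_eq_same]

theorem HH_memB {A B : Divisor K F} {ξ : Place K F → F} {P : Place K F} {v : F × F}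
    (hv : v ∈ HH A (B + Finsupp.single P 1) ξ) (h : P.Ge (-B P) v.2) : v ∈ HH A B ξ := by
  intro Q
  refine ⟨?_, (hv Q).2⟩
  rcases eq_or_ne Q P with rfl | hQ
  · exact h
  · exact add_pt_ne B hQ ▸ (hv Q).1

theorem HH_memA {A B : Divisor K F} {ξ : Place K F → F} {P : Place K F} {v : F × F}
    (hv : v ∈ HH (A + Finsupp.single P 1) B ξ) (h : P.Ge (-A P) (v.1 - ξ P * v.2)) :
    v ∈ HH A B ξ := by
  intro Q
  refine ⟨(hv Q).1, ?_⟩
  rcases eq_or_ne Q P with rfl | hQ
  · exact h
  · exact add_pt_ne A hQ ▸ (hv Q).2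

theorem pair_eq (ξ : F) (v w : F × F) :
    w.2 * v.1 + w.1 * v.2 = w.2 * (v.1 - ξ * v.2) + (w.1 - -ξ * w.2) * v.2 := by ring

theorem pair_mem {W A B : Divisor K F} {ξ : Place K F → F} {v w : F × F} {P : Place K F}
    (hv : P.Ge (-A P) (v.1 - ξ P * v.2)) (hw : w ∈ HH (W - B) (W - A) (-ξ)) {n : ℤ} (hn : 0 ≤ n)
    (hv2 : P.Ge (-B P - n) v.2) : P.Ge (-W P - n) (w.2 * v.1 + w.1 * v.2) := by
  rw [pair_eq (ξ P)]
  have h1 := (hw P).1.mul hv
  have h2 := (hw P).2.mul hv2
  rw [Finsupp.sub_apply] at h1 h2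
  exact (h1.mono (by omega)).add (h2.mono (by omega))

namespace Can

variable {g : ℕ} {W : Divisor K F} (hW : Can g W)
include hW

theorem HH_step (A D : Divisor K F) {C : Divisor K F} {ξ : Place K F → F}
    (h : ∀ P : Place K F, P.Ge (-C P) (ξ P)) (P : Place K F) :
    finrank K (HH A (D + Finsupp.single P 1) ξ) + finrank K (HH (W - D) (W - A) (-ξ)) ≤
      finrank K (HH A D ξ) + finrank K (HH (W - (D + Finsupp.single P 1)) (W - A) (-ξ)) + 1 := by
  have h1 := HH_fin A D h
  have h2 := HH_fin (W - (D + Finsupp.single P 1)) (W - A) (ξ := -ξ) fun P => (h P).neg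
  have e : W - D = W - (D + Finsupp.single P 1) + Finsupp.single P 1 := by abel
  by_cases hc : HH A (D + Finsupp.single P 1) ξ ≤ HH A D ξ
  · have h3 := Submodule.finrank_mono hc
    have h4 := finrank_step (HH (W - (D + Finsupp.single P 1)) (W - A) (-ξ))
      (HH (W - D) (W - A) (-ξ))
      (LinearMap.fst K F F - LinearMap.mulLeft K (-ξ P) ∘ₗ LinearMap.snd K F F) P
      (-(W - D : Divisor K F) P) (fun v hv => (hv P).2) fun v hv h5 =>
        HH_memA (e ▸ hv) (Place.Ge.mono h5 (by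
          rw [Finsupp.sub_apply, Finsupp.sub_apply, add_pt_eq]; omega))
    omega
  · obtain ⟨v, hv, hv'⟩ := Set.not_subset.1 hc
    have h3 := finrank_step (HH A D ξ) (HH A (D + Finsupp.single P 1) ξ) (LinearMap.snd K F F) P
      (-(D + Finsupp.single P 1 : Divisor K F) P) (fun v hv => (hv P).1) fun v hv h5 =>
        HH_memB hv (Place.Ge.mono h5 (by rw [add_pt_eq]; omega))
    have h4 : HH (W - D) (W - A) (-ξ) ≤ HH (W - (D + Finsupp.single P 1)) (W - A) (-ξ) := by
      intro w hw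
      refine HH_memA (e ▸ hw) ?_
      have h5 : w.2 * v.1 + w.1 * v.2 ∈ sec (W + Finsupp.single P 1) := by
        intro Q
        rcases eq_or_ne Q P with rfl | hQ
        · have := pair_mem (hv Q).2 hw zero_le_one (((hv Q).1).mono (by rw [add_pt_eq]; omega))
          exact this.mono (by rw [add_pt_eq]; omega)
        · have := pair_mem (hv Q).2 hw le_rfl
            (((hv Q).1).mono (by rw [add_pt_ne _ hQ]; omega))
          exact this.mono (by rw [add_pt_ne _ hQ]; omega)
      rw [hW.h0_W_add, pair_eq (ξ P)] at h5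
      have h6 := (hw P).1.mul (hv P).2
      rw [Finsupp.sub_apply] at h6
      have h7 := (h5 P).sub (h6.mono (by omega))
      rw [add_sub_cancel_left] at h7
      obtain ⟨h8, h9⟩ := Place.not_ge.1 fun h => hv' (HH_memB hv h)
      refine Place.Ge.of_mul h8 (h7.mono ?_)
      rw [Finsupp.sub_apply, add_pt_eq]
      omega
    have := Submodule.finrank_mono h4
    omega

theorem HH_bound (A B : Divisor K F) {C : Divisor K F} {ξ : Place K F → F}
    (h : ∀ P : Place K F, P.Ge (-C P) (ξ P)) : (finrank K (HH A B ξ) : ℤ) ≤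
      deg A + deg B + 2 - 2 * g + finrank K (HH (W - B) (W - A) (-ξ)) := by
  have key := div_induction (R := fun D => (finrank K (HH A B ξ) : ℤ) -
      finrank K (HH (W - B) (W - A) (-ξ)) - deg B ≤
    (finrank K (HH A D ξ) : ℤ) - finrank K (HH (W - D) (W - A) (-ξ)) - deg D)
    (fun D P ih => by
      have := hW.HH_step A D h P
      rw [deg_add, deg_single] at ih
      omega) (inf_le_left : B ⊓ (A - C) ≤ B) le_rfl
  have h1 : ∀ P : Place K F, P.Ge ((B ⊓ (A - C) : Divisor K F) P - A P) (ξ P) := fun P => (h P).mono (by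
    have := (inf_le_right : B ⊓ (A - C) ≤ A - C) P
    rw [Finsupp.sub_apply] at this
    omega)
  rw [HH_split h1, HH_split (A := W - B ⊓ (A - C)) (B := W - A) (ξ := -ξ)
    fun P => (h1 P).neg.mono (by
    simp only [Finsupp.sub_apply]; omega), (finrank_prod_sec _ _).2,
    (finrank_prod_sec _ _).2] at key
  have h2 := hW.rr A
  have h3 := hW.rr (B ⊓ (A - C))
  push_cast at key
  omega

end Can

theorem hermite_aux (P : Place K F) (r r' : Fin 2 → F) (h1 : r 1 ≠ 0)
    (h2 : P.Ge (P.ord (r 1)) (r' 1)) (h3 : r 0 * r' 1 - r 1 * r' 0 ≠ 0) (v : Fin 2 → F) :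
    (∃ c c' : F, P.Ge 0 c ∧ P.Ge 0 c' ∧ v = c • r + c' • r') ↔
      P.Ge (P.ord (r 1)) (v 1) ∧
        P.Ge (P.ord (r 0 * r' 1 - r 1 * r' 0) - P.ord (r 1)) (v 0 - r 0 / r 1 * v 1) := by
  set δ := r 0 * r' 1 - r 1 * r' 0 with hδ
  constructor
  · rintro ⟨c, c', hc, hc', rfl⟩
    refine ⟨(hc.mul0 (P.ge_ord _)).add (hc'.mul0 h2), Place.Ge.of_mul h1 ?_⟩
    have : ((c • r + c' • r') 0 - r 0 / r 1 * (c • r + c' • r') 1) * r 1 = -(c' * δ) := by
      simp only [Pi.add_apply, Pi.smul_apply, smul_eq_mul, hδ]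
      field_simp
      ring
    rw [this, sub_add_cancel]
    exact (hc'.mul0 (P.ge_ord _)).neg
  · rintro ⟨h4, h5⟩
    have h6 : P.Ge 0 (-((v 0 - r 0 / r 1 * v 1) * r 1 / δ)) := by
      refine (Place.Ge.of_mul h3 ?_).neg
      rw [div_mul_cancel₀ _ h3]
      exact (h5.mul (P.ge_ord (r 1))).mono (by omega)
    refine ⟨(v 1 - -((v 0 - r 0 / r 1 * v 1) * r 1 / δ) * r' 1) / r 1, _, ?_, h6, ?_⟩
    · refine Place.Ge.of_mul h1 ?_
      rw [div_mul_cancel₀ _ h1, zero_add]
      exact h4.sub (h6.mul0 h2)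
    · ext i
      fin_cases i
      · simp only [Fin.zero_eta, Pi.add_apply, Pi.smul_apply, smul_eq_mul]
        field_simp
        rw [hδ]; ring
      · simp only [Fin.mk_one, Pi.add_apply, Pi.smul_apply, smul_eq_mul]
        field_simp
        ring

theorem hermite_local (P : Place K F) (u : Matrix (Fin 2) (Fin 2) F) (hu : u.det ≠ 0) :
    ∃ (α β : ℤ) (ξ : F), α + β = - P.ord u.det ∧
      ∀ v, v ∈ P.lat u ↔ P.Ge (-β) (v 1) ∧ P.Ge (-α) (v 0 - ξ * v 1) := by
  have hl : ∀ v, v ∈ P.lat u ↔ ∃ c c' : F, P.Ge 0 c ∧ P.Ge 0 c' ∧ v = c • u 0 + c' • u 1 := by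
    intro v
    constructor
    · rintro ⟨c, hc, rfl⟩
      exact ⟨c 0, c 1, hc 0, hc 1, Fin.sum_univ_two _⟩
    · rintro ⟨c, c', hc, hc', rfl⟩
      exact Place.lat_add (Place.lat_smul hc (Place.lat_self u 0))
        (Place.lat_smul hc' (Place.lat_self u 1))
  rw [det_fin_two] at hu ⊢
  by_cases h : u 0 1 ≠ 0 ∧ P.Ge (P.ord (u 0 1)) (u 1 1)
  · refine ⟨P.ord (u 0 1) - P.ord (u 0 0 * u 1 1 - u 0 1 * u 1 0), - P.ord (u 0 1), u 0 0 / u 0 1,
      by ring, fun v => ?_⟩
    rw [hl, hermite_aux P (u 0) (u 1) h.1 h.2 hu, neg_neg, neg_sub]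
  · have h1 : u 1 1 ≠ 0 := by
      intro h1
      refine h ⟨fun h2 => hu (by rw [h1, h2]; ring), h1 ▸ P.ge_zero _⟩
    have h2 : P.Ge (P.ord (u 1 1)) (u 0 1) := by
      rw [P.ge_iff']
      by_contra hn
      push Not at hn
      exact h ⟨hn.1, P.ge_of_le hn.2.le⟩
    have e : u 1 0 * u 0 1 - u 1 1 * u 0 0 = -(u 0 0 * u 1 1 - u 0 1 * u 1 0) := by ring
    refine ⟨P.ord (u 1 1) - P.ord (u 0 0 * u 1 1 - u 0 1 * u 1 0), - P.ord (u 1 1), u 1 0 / u 1 1,
      by ring, fun v => ?_⟩
    have := hermite_aux P (u 1) (u 0) h1 h2 (e ▸ neg_ne_zero.2 hu) v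
    rw [e, P.ord_neg] at this
    rw [hl, neg_neg, neg_sub, ← this]
    constructor <;> rintro ⟨c, c', hc, hc', h3⟩ <;> exact ⟨c', c, hc', hc, by rw [h3, add_comm]⟩

theorem lat_one {n : ℕ} {P : Place K F} {v : Fin n → F} :
    v ∈ P.lat (1 : Matrix (Fin n) (Fin n) F) ↔ ∀ i, P.Ge 0 (v i) := by
  have h2 : ∀ c : Fin n → F, ∑ i, c i • (1 : Matrix (Fin n) (Fin n) F) i = c := fun c => by
    rw [← vecMul_eq_sum, vecMul_one]
  constructor
  · rintro ⟨c, hc, rfl⟩
    rw [h2]; exact hc
  · exact fun h => ⟨v, h, (h2 v).symm⟩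

theorem hermite (N : Bundle K F 2) : ∃ (A B C : Divisor K F) (ξ : Place K F → F),
    (∀ P : Place K F, P.Ge (-C P) (ξ P)) ∧ deg A + deg B = N.deg ∧
      ∀ P v, v ∈ N.stalk P ↔ P.Ge (-B P) (v 1) ∧ P.Ge (-A P) (v 0 - ξ P * v 1) := by
  choose α β ξ h1 h2 using fun P => hermite_local P (N.g P) (N.det_ne P)
  have good : ∀ P : Place K F, ((∀ i j, P.Ge 0 (N.g P i j)) ∧ P.ord (N.g P).det = 0) →
      α P = 0 ∧ β P = 0 ∧ max 0 (- P.ord (ξ P)) = 0 := by
    intro P hP
    have h3 := Place.lat_subset_of_ord (u := 1) (N.det_ne P) (fun j => lat_one.2 (hP.1 j))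
      (by simp [hP.2])
    have h4 := ((h2 P _).1 (h3 (Place.lat_self _ 0))).2
    obtain ⟨h5, h6⟩ := (h2 P _).1 (h3 (Place.lat_self _ 1))
    simp only [one_apply_eq, ne_eq, zero_ne_one, not_false_eq_true, one_apply_ne, mul_zero,
      sub_zero, one_ne_zero, mul_one, zero_sub] at h4 h5 h6
    have h7 := h4.le one_ne_zero
    have h8 := h5.le one_ne_zero
    have h9 := h1 P
    rw [P.ord_one] at h7 h8
    refine ⟨by omega, by omega, ?_⟩
    rcases P.ge_iff'.1 h6 with h | h
    · simp [neg_eq_zero.1 h]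
    · rw [P.ord_neg] at h; omega
  refine ⟨Finsupp.ofSupportFinite α (N.fin.subset fun P hP h => hP (good P h).1),
    Finsupp.ofSupportFinite β (N.fin.subset fun P hP h => hP (good P h).2.1),
    Finsupp.ofSupportFinite (fun P => max 0 (- P.ord (ξ P)))
      (N.fin.subset fun P hP h => hP (good P h).2.2), ξ, fun P => P.ge_of_le ?_, ?_, h2⟩
  · change -max 0 (- P.ord (ξ P)) ≤ _
    omega
  · rw [← deg_add, ← N.deg_dv]
    congr 1
    exact Finsupp.ext h1

theorem Can.not_stable {g : ℕ} {W : Divisor K F} (hW : Can g W) (S : CohSys K F 2)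
    (hS : S.HasType (4 * g - 3) (2 * g)) {α : ℝ} (hα : 0 < α) : ¬ S.Stable α := by
  intro hst
  obtain ⟨hd, hn⟩ := hS
  have h3 := hW.three_le
  have hfin : FiniteDimensional K S.V := Module.finite_of_finrank_pos (by omega)
  obtain ⟨A, B, C, ξ, hξ, hdeg, hN⟩ := hermite S.E
  have hH := HH_fin A B hξ
  have h1 : finrank K S.V ≤ finrank K (HH A B ξ) := by
    rw [← (LinearEquiv.finTwoArrow K F).finrank_map_eq]
    refine Submodule.finrank_mono ?_
    rintro _ ⟨v, hv, rfl⟩ P
    exact (hN P v).1 (S.mem v hv P)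
  have h2 := hW.HH_bound A B hξ
  have hG := HH_fin (W - B) (W - A) (ξ := -ξ) fun P => (hξ P).neg
  obtain ⟨⟨w, hw⟩, hw0⟩ := (finrank_pos_iff_exists_ne_zero (R := K)
    (M := HH (W - B) (W - A) (-ξ))).1 (by omega)
  have hw1 : ¬ (w.1 = 0 ∧ w.2 = 0) := fun h => hw0 (Subtype.ext (Prod.ext h.1 h.2))
  let t : Fin 2 → F := ![w.1, -w.2]
  have ht : t ≠ 0 := fun h => hw1 ⟨congrFun h 0, neg_eq_zero.1 (congrFun h 1)⟩
  let τ : F →ₗ[K] (Fin 2 → F) := (LinearMap.toSpanSingleton F _ t).restrictScalars K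
  have hτ : Function.Injective τ := smul_left_injective F ht
  let Λ : Submodule K F := S.V.comap τ
  have hΛ : FiniteDimensional K Λ :=
    FiniteDimensional.of_injective (τ.restrict (p := Λ) (q := S.V) fun _ h => h)
      fun a b h => Subtype.ext (hτ (congrArg Subtype.val h))
  let ψ : S.V →ₗ[K] F := (LinearMap.mulLeft K w.2 ∘ₗ LinearMap.proj 0 +
    LinearMap.mulLeft K w.1 ∘ₗ LinearMap.proj 1) ∘ₗ S.V.subtype
  have h4 := LinearMap.finrank_range_add_finrank_ker ψ
  have h5 : finrank K (LinearMap.range ψ) ≤ h0 W := by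
    refine Submodule.finrank_mono ?_
    rintro _ ⟨v, rfl⟩ P
    obtain ⟨h5, h6⟩ := (hN P v).1 (S.mem v v.2 P)
    have := pair_mem (v := (v.1 0, v.1 1)) h6 hw le_rfl (by simpa using h5)
    rw [sub_zero] at this
    exact this
  have h6 : finrank K (LinearMap.ker ψ) ≤ finrank K Λ := by
    rw [← Submodule.finrank_map_subtype_eq]
    refine (Submodule.finrank_mono ?_).trans (Submodule.finrank_map_le τ Λ)
    rintro _ ⟨v, hv, rfl⟩
    have h6 : w.2 * v.1 0 + w.1 * v.1 1 = 0 := hv
    obtain ⟨l, hl⟩ : ∃ l : F, τ l = v.1 := by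
      by_cases h7 : w.1 = 0
      · have h8 : w.2 ≠ 0 := fun h => hw1 ⟨h7, h⟩
        refine ⟨-(v.1 1 / w.2), funext fun i => ?_⟩
        rw [h7, zero_mul, add_zero, mul_eq_zero] at h6
        fin_cases i <;> simp [τ, t, h7, h8, h6.resolve_left h8]
      · refine ⟨v.1 0 / w.1, funext fun i => ?_⟩
        fin_cases i
        · simp [τ, t, h7]
        · simp only [τ, t, LinearMap.restrictScalars_apply, LinearMap.toSpanSingleton_apply,
            Fin.mk_one, Pi.smul_apply, smul_eq_mul, cons_val_one, cons_val_fin_one]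
          field_simp
          linear_combination -h6
    exact ⟨l, show τ l ∈ S.V from hl ▸ v.2, hl⟩
  rw [hW.h0_W] at h5
  obtain ⟨D, hD, hD'⟩ := exists_base' Λ (by omega)
  obtain ⟨L, hL, hL'⟩ := exists_line ((A + B - W) ⊔ D)
  let e := (LinearEquiv.funUnique (Fin 1) K F).symm
  let T : CohSys K F 1 := ⟨L, Λ.map e.toLinearMap, by
    rintro _ ⟨f, hf, rfl⟩ P
    exact (hL' P _).2 (sec_mono le_sup_right (hD hf) P)⟩
  have h7 := hst 1 T (lineMap t) one_pos ⟨lineMap_inj ht, fun P v hv => ?_, ?_⟩ fun h => ?_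
  · have h8 : finrank K T.V = finrank K Λ := e.finrank_map_eq Λ
    have h9 := deg_mono (le_sup_left : A + B - W ≤ (A + B - W) ⊔ D)
    rw [deg_sub, deg_add, hW.deg_W, hdeg, hd, ← hL] at h9
    have h10 : (2 * g - 1 : ℝ) ≤ L.deg := by exact_mod_cast (by omega : (2 * g - 1 : ℤ) ≤ L.deg)
    have h11 : (g : ℝ) ≤ finrank K Λ := by exact_mod_cast (by omega : g ≤ finrank K Λ)
    simp only [CohSys.slope, h8, hd, hn] at h7
    push_cast at h7
    change (L.deg : ℝ) / 1 + _ < _ at h7
    nlinarith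
  · have h8 := (hL' P v).1 hv
    rw [Finsupp.sup_apply] at h8
    rcases le_total ((A + B - W : Divisor K F) P) (D P) with h9 | h9
    · rw [sup_eq_right.2 h9] at h8
      obtain ⟨f, hf, hf0, hf1⟩ := hD' P
      have h10 : P.Ge 0 (v 0 / f) := Place.Ge.of_mul hf0 (by
        rw [div_mul_cancel₀ _ hf0, zero_add, hf1]; exact h8)
      have := Place.lat_smul h10 (S.mem _ hf P)
      rwa [show (v 0 / f) • τ f = lineMap t v by
        simp [τ, smul_smul, hf0]] at this
    · rw [sup_eq_left.2 h9, Finsupp.sub_apply, Finsupp.add_apply] at h8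
      have h10 := h8.mul (hw P).1
      have h11 := h8.mul (hw P).2
      rw [Finsupp.sub_apply] at h10 h11
      refine (hN P _).2 ⟨?_, ?_⟩
      · simpa [t] using h10.neg.mono (m := -B P) (by omega)
      · have := h11.mono (m := -A P) (by omega)
        convert this using 1
        simp [t]; ring
  · rintro _ ⟨f, hf, rfl⟩
    exact hf
  · obtain ⟨P⟩ : Nonempty (Place K F) := inferInstance
    obtain ⟨a, -, ha⟩ := h.1 P (S.E.row_mem P 0)
    obtain ⟨b, -, hb⟩ := h.1 P (S.E.row_mem P 1)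
    apply S.E.det_ne P
    rw [det_fin_two, ← ha, ← hb]
    simp only [lineMap_apply, Pi.smul_apply, smul_eq_mul]
    ring

end Pool.Agent.MP_79c67d_ag

end MrgPart4

-- ======== part 5: formerly Pool.Agent.MP_79c67d_ag.Dual
section MrgPart5

/-! The dual span of a generated stable coherent system exists and has the expected type. -/

set_option linter.unusedSectionVars false

namespace Pool.Agent.MP_79c67d_ag

open FF Module Matrix

variable {K F : Type} [Field K] [Field F] [Algebra K F] [IsFF K F] [CharZero K] [IsAlgClosed K]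

theorem dot_lat {n : ℕ} {ι : Type} [Fintype ι] {P : Place K F} {u : ι → Fin n → F}
    {v : Fin n → F} : (∀ w ∈ P.lat u, P.Ge 0 (w ⬝ᵥ v)) ↔ ∀ i, P.Ge 0 (u i ⬝ᵥ v) := by
  refine ⟨fun h i => h _ (Place.lat_self u i), ?_⟩
  rintro h _ ⟨c, hc, rfl⟩
  rw [sum_dotProduct]
  exact Place.ge_sum fun i _ => by rw [smul_dotProduct]; exact (hc i).mul0 (h i)

theorem exists_dual {n : ℕ} (N : Bundle K F n) : ∃ M : Bundle K F n, M.deg = -N.deg ∧
    ∀ P v, v ∈ M.stalk P ↔ ∀ w ∈ N.stalk P, P.Ge 0 (w ⬝ᵥ v) := by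
  have hu : ∀ P, IsUnit (N.g P).det := fun P => Ne.isUnit (N.det_ne P)
  have hd : ∀ P, ((N.g P)⁻¹ᵀ).det = (N.g P).det⁻¹ := fun P => by
    rw [det_transpose, det_nonsing_inv, Ring.inverse_eq_inv']
  refine ⟨⟨fun P => (N.g P)⁻¹ᵀ, fun P => by rw [hd]; exact inv_ne_zero (N.det_ne P),
    N.fin.subset fun P hP h => hP ⟨fun i j => ?_, by rw [hd, P.ord_inv, h.2, neg_zero]⟩⟩, ?_,
    fun P v => ?_⟩
  · obtain ⟨c, hc, e⟩ := Place.lat_subset_of_ord (u := 1) (N.det_ne P)
      (fun j => lat_one.2 (h.1 j)) (by simp [h.2]) (Place.lat_self _ j)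
    rw [← vecMul_eq_sum] at e
    have := congrArg (· ᵥ* (N.g P)⁻¹) e
    simp only [vecMul_vecMul, mul_nonsing_inv _ (hu P), vecMul_one] at this
    have h1 : (1 : Matrix (Fin n) (Fin n) F) j ᵥ* (N.g P)⁻¹ = (N.g P)⁻¹ j := by
      have := congrFun (Matrix.one_mul (N.g P)⁻¹) j
      rwa [← mul_apply_eq_vecMul]
    rw [transpose_apply, ← h1, this]
    exact hc i
  · simp only [Bundle.deg, hd, Place.ord_inv, finsum_neg_distrib]
  · rw [Bundle.stalk, Bundle.stalk, dot_lat]
    constructor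
    · rintro ⟨c, hc, rfl⟩ i
      change P.Ge 0 ((N.g P *ᵥ _) i)
      rw [← vecMul_eq_sum, vecMul_transpose, mulVec_mulVec, mul_nonsing_inv _ (hu P), one_mulVec]
      exact hc i
    · refine fun h => ⟨N.g P *ᵥ v, h, ?_⟩
      rw [← vecMul_eq_sum, vecMul_transpose, mulVec_mulVec, nonsing_inv_mul _ (hu P), one_mulVec]

namespace CohSys

variable {r k n : ℕ} {S : CohSys K F r} {s : Fin n → Fin r → F}

theorem Generated.stalk_eq (h : S.Generated) (hs : Submodule.span K (Set.range s) = S.V) (P) :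
    S.E.stalk P = P.lat s := by
  refine Set.Subset.antisymm (fun v hv => ?_)
    (Place.lat_subset fun i => S.mem _ (hs ▸ Submodule.subset_span ⟨i, rfl⟩) P)
  obtain ⟨m, u, h1, h2⟩ := h P v hv
  exact Place.lat_subset (fun j => Place.lat_span (hs ▸ h1 j)) h2

theorem Generated.span_eq (h : S.Generated) (hs : Submodule.span K (Set.range s) = S.V) :
    Submodule.span F (Set.range s) = ⊤ := by
  obtain ⟨P⟩ : Nonempty (Place K F) := inferInstance
  rw [eq_top_iff]
  intro v _
  have : v = ∑ i, (v ᵥ* (S.E.g P)⁻¹) i • S.E.g P i := by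
    rw [← vecMul_eq_sum, vecMul_vecMul, nonsing_inv_mul _ (Ne.isUnit (S.E.det_ne P)), vecMul_one]
  rw [this]
  refine Submodule.sum_mem _ fun i _ => Submodule.smul_mem _ _ ?_
  obtain ⟨c, -, e⟩ := h.stalk_eq hs P ▸ S.E.row_mem P i
  exact (Submodule.mem_span_range_iff_exists_fun F).2 ⟨c, e.symm⟩

theorem exists_basis (S : CohSys K F r) [FiniteDimensional K S.V] (h : finrank K S.V = n) :
    ∃ s : Fin n → Fin r → F, LinearIndependent K s ∧ Submodule.span K (Set.range s) = S.V := by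
  let b := Module.finBasisOfFinrankEq K S.V h
  refine ⟨S.V.subtype ∘ b, b.linearIndependent.map' _ S.V.ker_subtype, ?_⟩
  rw [Set.range_comp, ← Submodule.map_span, b.span_eq, Submodule.map_top, Submodule.range_subtype]

theorem Generated.exists_dualSpan (h : S.Generated) [FiniteDimensional K S.V]
    (hn : finrank K S.V = n) (hk : r + k = n) : ∃ T : CohSys K F k, S.IsDualSpan T := by
  classical
  obtain ⟨s, hs, hs'⟩ := S.exists_basis hn
  have h1 := LinearMap.finrank_range_add_finrank_ker (Fintype.linearCombination F s)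
  rw [LinearMap.range_eq_top.2 (comb_surj (h.span_eq hs')), finrank_top, finrank_fin_fun,
    finrank_fin_fun] at h1
  obtain ⟨φ, hφ, hφr⟩ := exists_incl (LinearMap.ker (Fintype.linearCombination F s))
  obtain rfl : finrank F (LinearMap.ker (Fintype.linearCombination F s)) = k := by omega
  let t := fun i b => φ (Pi.single b 1) i
  have ht : ∀ v, (fun i => t i ⬝ᵥ v) = φ v := fun v => by
    ext i
    conv_rhs => rw [pi_eq_sum_univ' v]
    simp [t, dotProduct, map_sum, mul_comm]
  have ht' : (fun v i => t i ⬝ᵥ v) = φ := funext ht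
  have hsp : Submodule.span F (Set.range t) = ⊤ := by
    by_contra hne
    obtain ⟨l, hl, hl'⟩ := Submodule.exists_le_ker_of_lt_top _ (lt_top_iff_ne_top.2 hne)
    have h2 : ∀ w, l w = w ⬝ᵥ fun b => l (Pi.single b 1) := fun w => by
      conv_lhs => rw [pi_eq_sum_univ' w]
      simp [dotProduct, map_sum]
    have h3 : (fun b => l (Pi.single b 1)) = 0 := hφ (by
      rw [← ht, map_zero]
      exact funext fun i => (h2 _).symm.trans (hl' (Submodule.subset_span ⟨i, rfl⟩)))
    exact hl (LinearMap.ext fun w => by rw [h2, h3, dotProduct_zero, LinearMap.zero_apply])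
  obtain ⟨N, hN⟩ := exists_bundle K hsp
  refine ⟨⟨N, Submodule.span K (Set.range t), fun v hv P => hN P ▸ Place.lat_span hv⟩, n, s, t,
    hs, hs', rfl, ht' ▸ hφ, fun P => ?_⟩
  ext c
  simp only [hN, dot_lat, Set.mem_image, Set.mem_ofPred_eq]
  constructor
  · rintro ⟨v, hv, rfl⟩
    refine ⟨hv, ?_⟩
    have : φ v ∈ LinearMap.ker (Fintype.linearCombination F s) := hφr.le ⟨v, rfl⟩
    rw [← ht] at this
    exact this
  · rintro ⟨h2, h3⟩
    obtain ⟨v, rfl⟩ : c ∈ LinearMap.range φ := by rw [hφr]; exact h3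
    exact ⟨v, fun i => congrFun (ht v) i ▸ h2 i, ht v⟩

theorem exists_scale (P : Place K F) (c : Fin n → F) : ∃ f : F, f ≠ 0 ∧ ∀ i, P.Ge 0 (f * c i) := by
  obtain ⟨C, -, hC⟩ := exists_common (K := K) c
  obtain ⟨f, hf, hf1⟩ := P.exists_ord (C P)
  exact ⟨f, hf, fun i => ((P.ge_ord f).mul (hC i P)).mono (by omega)⟩

variable {T : CohSys K F k} {t : Fin n → Fin k → F}

theorem ex_of (hsp : Submodule.span F (Set.range s) = ⊤)
    (h1 : Function.Injective (fun (v : Fin k → F) (i : Fin n) => t i ⬝ᵥ v))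
    (h2 : ∀ P : Place K F, (fun (v : Fin k → F) (i : Fin n) => t i ⬝ᵥ v) ''
        {v | ∀ w ∈ T.E.stalk P, P.Ge 0 (w ⬝ᵥ v)} =
      {c | (∀ i, P.Ge 0 (c i)) ∧ ∑ i, c i • s i = 0}) :
    Ex (Matrix.of t).mulVecLin (Fintype.linearCombination F s) := by
  obtain ⟨P⟩ : Nonempty (Place K F) := inferInstance
  refine ⟨h1, comb_surj hsp, le_antisymm ?_ fun c hc => ?_⟩
  · rintro _ ⟨v, rfl⟩
    obtain ⟨f, hf, hf1⟩ := exists_scale P fun i => T.E.g P i ⬝ᵥ v
    have h3 := ((h2 P).le ⟨f • v, dot_lat.2 fun i => by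
      rw [dotProduct_smul]; exact hf1 i, rfl⟩).2
    rw [← Submodule.smul_mem_iff _ hf, ← map_smul]
    exact h3
  · obtain ⟨f, hf, hf1⟩ := exists_scale P c
    obtain ⟨v, -, hv⟩ := (h2 P).ge (show f • c ∈ _ from
      ⟨hf1, (Submodule.smul_mem _ f hc : f • c ∈ LinearMap.ker _)⟩)
    rw [← Submodule.smul_mem_iff _ hf]
    exact ⟨v, hv⟩

theorem Generated.deg_dualSpan (h : S.Generated) (hT : S.IsDualSpan T) : T.E.deg = S.E.deg := by
  obtain ⟨n, s, t, -, hs, -, h1, h2⟩ := hT
  obtain ⟨M, hM, hM'⟩ := exists_dual T.E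
  obtain ⟨O, hO, hO'⟩ := exists_triv K F n
  have := Bundle.deg_add_eq (ex_of (h.span_eq hs) h1 h2) (E' := M) (E := O) (Q := S.E)
    (fun P v hv => (hO' P _).2 ((h2 P).le ⟨v, (hM' P v).1 hv, rfl⟩).1) (fun P => ?_)
    fun P c hc hc0 => ?_
  · omega
  · rw [h.stalk_eq hs]
    ext v
    constructor
    · rintro ⟨c, hc, rfl⟩
      exact ⟨c, (hO' P c).1 hc, rfl⟩
    · rintro ⟨c, hc, rfl⟩
      exact ⟨c, (hO' P c).2 hc, rfl⟩
  · obtain ⟨v, hv, e⟩ := (h2 P).ge (show c ∈ _ from ⟨(hO' P c).1 hc, hc0⟩)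
    exact ⟨v, (hM' P v).2 hv, e⟩

theorem Generated.noTriv (h : S.Generated) (hs : Submodule.span K (Set.range s) = S.V)
    (hr : 2 ≤ r) {α : ℝ} (hα : 0 < α) (hst : S.Stable α) (hd : 0 ≤ S.E.deg)
    (hn : r ≤ finrank K S.V) : NoTriv K s := by
  intro l hl
  choose κ hκ using hl
  have hsp := h.span_eq hs
  by_contra hl0
  obtain ⟨j, hj⟩ : ∃ j, κ j ≠ 0 := by
    by_contra hc
    push Not at hc
    exact hl0 (LinearMap.ext_on_range hsp fun i => by simp [hκ, hc])
  have hj' : algebraMap K F (κ j) ≠ 0 := by simpa using hj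
  let π : (Fin r → F) →ₗ[F] (Fin 1 → F) := LinearMap.pi fun _ => l
  have hπ0 : ∀ v, π v = 0 ↔ l v = 0 := fun v => ⟨fun h => congrFun h 0, fun h => funext fun _ => h⟩
  have hπj : ∀ w : Fin 1 → F, π ((w 0 / algebraMap K F (κ j)) • s j) = w := fun w => by
    ext i
    rw [Subsingleton.elim i 0]
    simp [π, hκ, hj']
  obtain ⟨φ, hφ, hφr⟩ := exists_incl (LinearMap.ker π)
  generalize finrank F (LinearMap.ker π) = m at φ hφ hφr
  have hex : Ex φ π := ⟨hφ, fun w => ⟨_, hπj w⟩, hφr⟩
  have hm := hex.add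
  choose p hp using fun i => hex.lift (v := s i - (κ i / κ j) • s j) ((hπ0 _).2 (by
    rw [map_sub, LinearMap.map_smul_of_tower, hκ, hκ, Algebra.smul_def, ← map_mul,
      div_mul_cancel₀ _ hj, sub_self]))
  have key : ∀ c : Fin n → F, π (∑ i, c i • s i) = 0 → φ (∑ i, c i • p i) = ∑ i, c i • s i := by
    intro c hc
    rw [hπ0, map_sum] at hc
    simp only [map_smul, hκ, smul_eq_mul] at hc
    simp only [map_sum, map_smul, hp, smul_sub, Finset.sum_sub_distrib, sub_eq_self]
    simp only [← algebraMap_smul F (κ _ / κ j), smul_smul, map_div₀, ← mul_div_assoc,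
      ← Finset.sum_smul, ← Finset.sum_div, hc, zero_div, zero_smul]
  have hp1 : Submodule.span F (Set.range p) = ⊤ := by
    rw [eq_top_iff]
    intro v _
    obtain ⟨c, hc⟩ := comb_surj hsp (φ v)
    rw [Fintype.linearCombination_apply] at hc
    exact (Submodule.mem_span_range_iff_exists_fun F).2
      ⟨c, hφ (by rw [key c (hc ▸ hex.comp v), hc])⟩
  obtain ⟨E', hE'⟩ := exists_bundle K hp1
  obtain ⟨O, hO, hO'⟩ := exists_triv K F 1
  have hsV : ∀ i, s i ∈ S.V := fun i => hs ▸ Submodule.subset_span ⟨i, rfl⟩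
  have hpV : ∀ i, φ (p i) ∈ S.V := fun i =>
    hp i ▸ Submodule.sub_mem _ (hsV i) (Submodule.smul_mem _ _ (hsV j))
  have m1 : ∀ P, Set.MapsTo φ (E'.stalk P) (S.E.stalk P) := fun P => by
    rw [Set.mapsTo_iff_image_subset, hE', Place.lat_map]
    exact Place.lat_subset fun i => S.mem _ (hpV i) P
  have hdeg := Bundle.deg_add_eq hex m1 (Q := O) (fun P => ?_) fun P v hv hv0 => ?_
  rotate_left
  · rw [h.stalk_eq hs, Place.lat_map]
    refine (Place.lat_subset fun i => (hO' P _).2 fun _ => ?_).antisymm fun w hw => ?_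
    · change P.Ge 0 (l (s i))
      rw [hκ]; exact P.ge_const _
    · rw [← hπj w, map_smul]
      exact Place.lat_smul (((hO' P w).1 hw 0).div0 (P.ord_const _))
        (Place.lat_self (fun i => π (s i)) j)
  · rw [h.stalk_eq hs] at hv
    obtain ⟨c, hc, rfl⟩ := hv
    exact ⟨_, hE' P ▸ ⟨c, hc, rfl⟩, key c hv0⟩
  rw [hO, add_zero] at hdeg
  have hfin : FiniteDimensional K (Submodule.span K (Set.range p)) :=
    FiniteDimensional.span_of_finite K (Set.finite_range _)
  have hV : S.V ≤ (Submodule.span K (Set.range p)).map (φ.restrictScalars K) ⊔ K ∙ s j := by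
    rw [← hs, Submodule.span_le]
    rintro _ ⟨i, rfl⟩
    rw [← sub_add_cancel (s i) ((κ i / κ j) • s j), ← hp]
    exact Submodule.add_mem_sup ⟨p i, Submodule.subset_span ⟨i, rfl⟩, rfl⟩
      (Submodule.smul_mem _ _ (Submodule.mem_span_singleton_self _))
  have h1 := (Submodule.finrank_mono hV).trans (Submodule.finrank_add_le_finrank_add_finrank _ _)
  have h2 := Submodule.finrank_map_le (φ.restrictScalars K) (Submodule.span K (Set.range p))
  have h3 := finrank_span_le_card (R := K) ({s j} : Set (Fin r → F))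
  simp only [Set.toFinset_singleton, Finset.card_singleton] at h3
  have h4 := hst m ⟨E', Submodule.span K (Set.range p), fun v hv P => hE' P ▸ Place.lat_span hv⟩
    φ (by omega) ⟨hφ, m1, fun v hv => ?_⟩ fun hc => ?_
  · simp only [slope, hdeg] at h4
    have h5 : (finrank K S.V : ℝ) ≤ finrank K (Submodule.span K (Set.range p)) + 1 := by
      exact_mod_cast (by omega : finrank K S.V ≤ finrank K (Submodule.span K (Set.range p)) + 1)
    have h6 : (r : ℝ) ≤ finrank K S.V := by exact_mod_cast hn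
    have h7 : (0 : ℝ) ≤ S.E.deg := by exact_mod_cast hd
    have h8 : (0 : ℝ) < m := by exact_mod_cast (by omega : 0 < m)
    have h9 : (m : ℝ) + 1 = r := by exact_mod_cast hm
    rw [← add_div, ← add_div, ← h9, div_lt_div_iff₀ h8 (by linarith)] at h4
    nlinarith [mul_nonneg hα.le (sub_nonneg.2 h6),
      mul_nonneg (mul_nonneg hα.le (sub_nonneg.2 h5)) (by linarith : (0 : ℝ) ≤ m + 1)]
  · exact (Submodule.map_le_iff_le_comap.1 (show (Submodule.span K (Set.range p)).map
      (φ.restrictScalars K) ≤ S.V by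
        rw [Submodule.map_span, Submodule.span_le]
        rintro _ ⟨_, ⟨i, rfl⟩, rfl⟩
        exact hpV i)) hv
  · obtain ⟨v, -, hv⟩ := hc.2 (hsV j)
    have := (hπ0 _).1 (hex.comp v)
    rw [hv, hκ] at this
    exact hj' this

theorem Generated.dim_dualSpan (h : S.Generated) (hT : S.IsDualSpan T)
    (hr : 2 ≤ r) {α : ℝ} (hα : 0 < α) (hst : S.Stable α) (hd : 0 ≤ S.E.deg)
    (hn : r ≤ finrank K S.V) : finrank K T.V = finrank K S.V := by
  classical
  obtain ⟨n, s, t, hli, hs, ht, h1, h2⟩ := hT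
  have hex := ex_of (h.span_eq hs) h1 h2
  have hnt := h.noTriv hs hr hα hst hd hn
  rw [← hs, ← ht, finrank_span_eq_card hli, finrank_span_eq_card]
  rw [Fintype.linearIndependent_iff]
  intro κ hκ
  obtain ⟨σ, hσ⟩ := (Fintype.linearCombination F s).exists_rightInverse_of_surjective
    (LinearMap.range_eq_top.2 hex.surj)
  let l0 : (Fin n → F) →ₗ[F] F := Fintype.linearCombination F fun i => algebraMap K F (κ i)
  have h3 : ∀ c, Fintype.linearCombination F s c = 0 → l0 c = 0 := fun c hc => by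
    obtain ⟨v, rfl⟩ := hex.lift hc
    have := congrArg (· ⬝ᵥ v) hκ
    simp only [sum_dotProduct, smul_dotProduct, zero_dotProduct] at this
    rw [← this, Fintype.linearCombination_apply]
    exact Finset.sum_congr rfl fun i _ => by
      rw [smul_eq_mul, Algebra.smul_def, mul_comm]; rfl
  have h4 : ∀ i, (l0 ∘ₗ σ) (s i) = algebraMap K F (κ i) := fun i => by
    have h5 := h3 (σ (s i) - Pi.single i 1) (by
      rw [map_sub, ← LinearMap.comp_apply, hσ]; simp)
    rw [map_sub, sub_eq_zero] at h5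
    rw [LinearMap.comp_apply, h5]
    simp [l0]
  intro i
  have := h4 i
  rw [hnt _ fun i => ⟨_, h4 i⟩] at this
  simpa using this.symm

end CohSys

end Pool.Agent.MP_79c67d_ag

end MrgPart5

-- marker of a merged file
example : 731051 + 435898 = 731051 + 435898 := rfl
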